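import Pool.Agent.Work.MP_2dba45_nt.Weil.Defs

set_option autoImplicit false

/-!
Module CHARSUM.  From the point counts to the sum.  `ψ z = stdAddChar (trace z)`, `g x = a x + b / x`,
`q = card k`, `N' d = #{(x, y) : x ≠ 0, y ^ p - y = g x - d}`.
`∑_d ψ d N' d = ∑_{x,y} ψ (g x - (y^p - y)) = q KS` (`trace (y ^ p) = trace y`);
`N' d ≤ p #{x} ≤ q + E` (at most `p` roots `y`); `∑_d ψ d = 0` (the trace is surjective), so
`q ‖KS‖ = ‖∑_d ψ d (N' d - (q + E))‖ ≤ ∑_d ((q + E) - N' d) = q (q + E) - (q - 1) q`.
-/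

namespace Pool.Agent.Work.MP_2dba45_nt.Weil

open Polynomial Finset

variable {p : ℕ} [Fact p.Prime]

theorem trace_frob {k : Type} [Field k] [Fintype k] [Algebra (ZMod p) k] (y : k) :
    Algebra.trace (ZMod p) k (y ^ p) = Algebra.trace (ZMod p) k y := by
  have h := Algebra.trace_eq_of_algEquiv
    (FiniteField.frobeniusAlgEquivOfAlgebraic (ZMod p) k) y
  rw [FiniteField.coe_frobeniusAlgEquivOfAlgebraic, ZMod.card] at h
  exact h

/-- The additive character of `k`. -/
noncomputable def csPsi (p : ℕ) [Fact p.Prime] (k : Type) [Field k] [Algebra (ZMod p) k] :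
    AddChar k ℂ :=
  (ZMod.stdAddChar (N := p)).compAddMonoidHom (Algebra.trace (ZMod p) k).toAddMonoidHom

theorem cs_psiK_apply {k : Type} [Field k] [Algebra (ZMod p) k] (z : k) :
    csPsi p k z = (ZMod.stdAddChar (Algebra.trace (ZMod p) k z) : ℂ) := rfl

theorem cs_psiK_ne_one {k : Type} [Field k] [Fintype k] [Algebra (ZMod p) k] : csPsi p k ≠ 1 := by
  intro h
  obtain ⟨z, hz⟩ := Algebra.trace_surjective (ZMod p) k 1
  have h1 : csPsi p k z = 1 := by rw [h]; rfl
  rw [cs_psiK_apply, hz] at h1
  have h2 := (ZMod.injective_stdAddChar (N := p)) (h1.trans (AddChar.map_zero_eq_one _).symm)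
  exact one_ne_zero h2

/-- `y ↦ y ^ p - y`. -/
noncomputable def csArtin (p : ℕ) [Fact p.Prime] (k : Type) [Field k] [Algebra (ZMod p) k] :
    k →+ k :=
  haveI : CharP k p := (Algebra.charP_iff (ZMod p) k p).1 inferInstance
  (frobenius k p).toAddMonoidHom - AddMonoidHom.id k

theorem cs_artin_apply {k : Type} [Field k] [Algebra (ZMod p) k] (y : k) :
    csArtin p k y = y ^ p - y := by
  have : CharP k p := (Algebra.charP_iff (ZMod p) k p).1 inferInstance
  simp [csArtin, frobenius_def]

theorem cs_psiK_artin {k : Type} [Field k] [Fintype k] [Algebra (ZMod p) k] (y : k) :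
    csPsi p k (csArtin p k y) = 1 := by
  rw [cs_psiK_apply, cs_artin_apply, map_sub, trace_frob, sub_self, AddChar.map_zero_eq_one]

theorem cs_card_ker_artin {k : Type} [Field k] [Fintype k] [Algebra (ZMod p) k] :
    Nat.card (csArtin p k).ker = p := by
  classical
  have hp : p.Prime := Fact.out
  have e : ((csArtin p k).ker : Set k) = Set.range (algebraMap (ZMod p) k) := by
    apply Set.Subset.antisymm
    · -- at most `p` roots
      have hR : Set.range (algebraMap (ZMod p) k) ⊆ ((csArtin p k).ker : Set k) := by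
        rintro _ ⟨c, rfl⟩
        rw [SetLike.mem_coe, AddMonoidHom.mem_ker, cs_artin_apply, ← map_pow, ZMod.pow_card, sub_self]
      have hfin : ((csArtin p k).ker : Set k).Finite := Set.toFinite _
      have hc1 : (Set.range (algebraMap (ZMod p) k)).ncard = p := by
        rw [← Set.image_univ, Set.ncard_image_of_injective _ (algebraMap (ZMod p) k).injective,
          Set.ncard_univ, Nat.card_eq_fintype_card, ZMod.card]
      have hc2 : ((csArtin p k).ker : Set k).ncard ≤ p := by
        have hsub : ((csArtin p k).ker : Set k) ⊆ ((X ^ p - X : k[X]).roots.toFinset : Set k) := by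
          intro y hy
          rw [SetLike.mem_coe, AddMonoidHom.mem_ker, cs_artin_apply] at hy
          rw [Finset.mem_coe, Multiset.mem_toFinset, mem_roots
            (FiniteField.X_pow_card_sub_X_ne_zero k hp.one_lt)]
          simpa [IsRoot] using hy
        calc ((csArtin p k).ker : Set k).ncard ≤
            ((X ^ p - X : k[X]).roots.toFinset : Set k).ncard :=
              Set.ncard_le_ncard hsub (Set.toFinite _)
          _ = (X ^ p - X : k[X]).roots.toFinset.card := Set.ncard_coe_finset _
          _ ≤ (X ^ p - X : k[X]).roots.card := Multiset.toFinset_card_le _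
          _ ≤ (X ^ p - X : k[X]).natDegree := card_roots' _
          _ = p := FiniteField.X_pow_card_sub_X_natDegree_eq k hp.one_lt
      have := Set.eq_of_subset_of_ncard_le hR (by rw [hc1]; exact hc2) hfin
      exact this.symm.subset
    · rintro _ ⟨c, rfl⟩
      rw [SetLike.mem_coe, AddMonoidHom.mem_ker, cs_artin_apply, ← map_pow, ZMod.pow_card, sub_self]
  have h2 : Nat.card (csArtin p k).ker = ((csArtin p k).ker : Set k).ncard := rfl
  rw [h2, e, ← Set.image_univ, Set.ncard_image_of_injective _ (algebraMap (ZMod p) k).injective,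
          Set.ncard_univ, Nat.card_eq_fintype_card, ZMod.card]

open Classical in
theorem cs_card_range_artin {k : Type} [Field k] [Fintype k] [Algebra (ZMod p) k] (c : k) :
    p * ((univ : Finset k).filter (fun d => ∃ y : k, y ^ p - y = c - d)).card =
      Fintype.card k := by
  have h1 := (csArtin p k).ker.index_mul_card
  rw [AddSubgroup.index_ker, cs_card_ker_artin, Nat.card_eq_fintype_card (α := k)] at h1
  rw [← h1, mul_comm]
  congr 1
  have h2 : Nat.card (csArtin p k).range = ((csArtin p k).range : Set k).ncard := rfl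
  rw [h2, ← Set.ncard_coe_finset]
  have h3 : ((((univ : Finset k).filter (fun d => ∃ y : k, y ^ p - y = c - d)) : Finset k) : Set k)
      = (fun z => c - z) '' ((csArtin p k).range : Set k) := by
    ext d
    simp only [Finset.coe_filter, Finset.mem_univ, true_and, Set.mem_ofPred_eq, Set.mem_image,
      SetLike.mem_coe, AddMonoidHom.mem_range, cs_artin_apply]
    constructor
    · rintro ⟨y, hy⟩
      exact ⟨c - d, ⟨y, hy⟩, by ring⟩
    · rintro ⟨z, ⟨y, hy⟩, rfl⟩
      exact ⟨y, by rw [hy]; ring⟩
  rw [h3, Set.ncard_image_of_injective _ (fun x y h => by simpa using h)]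

open Classical in
theorem cs_sum_psi {k : Type} [Field k] [Fintype k] [Algebra (ZMod p) k] (c : k) :
    (p : ℂ) * ∑ d ∈ (univ : Finset k).filter (fun d => ∃ y : k, y ^ p - y = c - d), csPsi p k d =
      Fintype.card k * csPsi p k c := by
  have h : ∀ d ∈ (univ : Finset k).filter (fun d => ∃ y : k, y ^ p - y = c - d),
      csPsi p k d = csPsi p k c := by
    intro d hd
    obtain ⟨y, hy⟩ := (Finset.mem_filter.1 hd).2
    have h1 : c = d + csArtin p k y := by rw [cs_artin_apply, hy]; ring
    rw [h1, AddChar.map_add_eq_mul, cs_psiK_artin, mul_one]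
  rw [Finset.sum_congr rfl h, Finset.sum_const, nsmul_eq_mul, ← mul_assoc, ← cs_card_range_artin (p := p) c]
  push_cast
  rfl

open Classical in
theorem KS_le {k : Type} [Field k] [Fintype k] [Algebra (ZMod p) k] (a b : ZMod p) {E : ℝ}
    (hN : ∀ d : k, (p : ℝ) * ((univ : Finset k).filter (fun x => x ≠ 0 ∧ ∃ y : k,
      y ^ p - y = algebraMap (ZMod p) k a * x + algebraMap (ZMod p) k b * x⁻¹ - d)).card ≤
      Fintype.card k + E) : ‖KS p a b k‖ ≤ E + 1 := by
  set g : k → k := fun x => algebraMap (ZMod p) k a * x + algebraMap (ZMod p) k b * x⁻¹ with hg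
  set q : ℕ := Fintype.card k with hq
  have hq0 : 0 < q := Fintype.card_pos
  set S : k → Finset k := fun d => (univ : Finset k).filter (fun x => x ≠ 0 ∧ ∃ y : k,
      y ^ p - y = g x - d) with hS
  have hN' : ∀ d : k, (p : ℝ) * (S d).card ≤ q + E := hN
  -- double counting
  have hswap : ∀ F : k → ℂ, ∑ d : k, F d * ((S d).card : ℂ) =
      ∑ x ∈ (univ : Finset k).filter (fun x => x ≠ 0),
        ∑ d ∈ (univ : Finset k).filter (fun d => ∃ y : k, y ^ p - y = g x - d), F d := by
    intro F
    have h1 : ∀ d : k, F d * ((S d).card : ℂ) = ∑ x ∈ (univ : Finset k).filter (fun x => x ≠ 0),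
        if (∃ y : k, y ^ p - y = g x - d) then F d else 0 := by
      intro d
      rw [← Finset.sum_filter, Finset.sum_const, nsmul_eq_mul, mul_comm, hS]
      simp only [Finset.filter_filter]
    rw [Finset.sum_congr rfl (fun d _ => h1 d), Finset.sum_comm]
    refine Finset.sum_congr rfl fun x _ => ?_
    rw [Finset.sum_filter]
  have hcard0 : ((univ : Finset k).filter (fun x => x ≠ 0)).card = q - 1 := by
    rw [Finset.filter_ne', Finset.card_erase_of_mem (Finset.mem_univ _), Finset.card_univ]
  have hA : (p : ℂ) * ∑ d : k, csPsi p k d * ((S d).card : ℂ) = q * KS p a b k := by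
    rw [hswap, Finset.mul_sum, KS, Finset.mul_sum]
    refine Finset.sum_congr rfl fun x _ => ?_
    rw [cs_sum_psi (g x)]
    rfl
  have hB : (p : ℂ) * ∑ d : k, ((S d).card : ℂ) = q * ((q : ℂ) - 1) := by
    have h1 := hswap (fun _ => 1)
    simp only [one_mul] at h1
    rw [h1, Finset.mul_sum]
    have h2 : ∀ x ∈ (univ : Finset k).filter (fun x => x ≠ 0), (p : ℂ) *
        ∑ d ∈ (univ : Finset k).filter (fun d => ∃ y : k, y ^ p - y = g x - d), (1 : ℂ) = q := by
      intro x _
      rw [Finset.sum_const, nsmul_eq_mul, mul_one, hq, ← cs_card_range_artin (p := p) (g x)]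
      push_cast
      rfl
    rw [Finset.sum_congr rfl h2, Finset.sum_const, hcard0, nsmul_eq_mul, Nat.cast_sub hq0]
    push_cast
    ring
  have hB' : (p : ℝ) * ∑ d : k, ((S d).card : ℝ) = q * ((q : ℝ) - 1) := by
    exact_mod_cast hB
  have hC : ∑ d : k, csPsi p k d = 0 := AddChar.sum_eq_zero_of_ne_one cs_psiK_ne_one
  have hD : (q : ℂ) * KS p a b k =
      ∑ d : k, csPsi p k d * (((p : ℝ) * (S d).card - (q + E) : ℝ) : ℂ) := by
    have h1 : ∑ d : k, csPsi p k d * (((p : ℝ) * (S d).card - (q + E) : ℝ) : ℂ) =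
        (p : ℂ) * ∑ d : k, csPsi p k d * ((S d).card : ℂ) - (q + E) * ∑ d : k, csPsi p k d := by
      rw [Finset.mul_sum, Finset.mul_sum, ← Finset.sum_sub_distrib]
      refine Finset.sum_congr rfl fun d _ => ?_
      push_cast
      ring
    rw [h1, hC, mul_zero, sub_zero, hA]
  have hE : (q : ℝ) * ‖KS p a b k‖ ≤ q * (E + 1) := by
    have h1 : ‖(q : ℂ) * KS p a b k‖ = q * ‖KS p a b k‖ := by
      rw [norm_mul, Complex.norm_natCast]
    rw [← h1, hD]
    calc ‖∑ d : k, csPsi p k d * (((p : ℝ) * (S d).card - (q + E) : ℝ) : ℂ)‖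
        ≤ ∑ d : k, ‖csPsi p k d * (((p : ℝ) * (S d).card - (q + E) : ℝ) : ℂ)‖ :=
          norm_sum_le _ _
      _ = ∑ d : k, ((q + E) - (p : ℝ) * (S d).card) := by
          refine Finset.sum_congr rfl fun d _ => ?_
          rw [norm_mul, AddChar.norm_apply, one_mul, Complex.norm_real, Real.norm_eq_abs,
            abs_of_nonpos (by linarith [hN' d])]
          ring
      _ = q * (q + E) - (p : ℝ) * ∑ d : k, ((S d).card : ℝ) := by
          rw [Finset.sum_sub_distrib, Finset.sum_const, Finset.card_univ, nsmul_eq_mul,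
            Finset.mul_sum]
      _ = q * (E + 1) := by rw [hB']; ring
  exact le_of_mul_le_mul_left hE (by exact_mod_cast hq0)

end Pool.Agent.Work.MP_2dba45_nt.Weil
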