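import Pool.Agent.Work.MP_2dba45_nt.Weil.Mon

set_option autoImplicit false

/-!
Module FIELDSUM.  Group the `x ∈ k`, `x ≠ 0`, by their minimal polynomial `P` over `ZMod p`, of degree
`d ∣ n` (`minpoly` monic irreducible, nonzero constant term since `x ≠ 0`).
`Algebra.trace x = (n/d) * (-nextCoeff P)` : `trace_eq_finrank_mul_minpoly_nextCoeff`; the minimal
polynomial of `x⁻¹` is `C (P.coeff 0)⁻¹ * P.reverse` (monic, degree `d`, root `x⁻¹`, and
`K⟮x⁻¹⟯ = K⟮x⟯`), whose `nextCoeff` is `P.coeff 1 / P.coeff 0`; so the summand is `eta P ^ (n/d)`.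
Number of `x ∈ k` with minimal polynomial `P`, `d ∣ n`: the roots of `P` in `k`; `P` divides
`X ^ (p ^ n) - X` (`Irreducible.natDegree_dvd_iff_dvd_X_pow_card_pow_sub_X` in
Mathlib.FieldTheory.Finite.Extension), which splits with distinct roots in `k`, so there are `d`.
-/

namespace Pool.Agent.Work.MP_2dba45_nt.Weil

open Polynomial Finset IntermediateField

variable {p : ℕ} [Fact p.Prime]

private theorem finrank_eq_n {k : Type} [Field k] [Fintype k] [Algebra (ZMod p) k] {n : ℕ}
    (hk : Nat.card k = p ^ n) : Module.finrank (ZMod p) k = n := by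
  have h := Module.natCard_eq_pow_finrank (K := ZMod p) (V := k)
  rw [hk, Nat.card_eq_fintype_card, ZMod.card] at h
  exact (Nat.pow_right_injective (Fact.out : p.Prime).two_le h).symm

private theorem adjoin_inv_eq {F k : Type} [Field F] [Field k] [Algebra F k] (x : k) :
    (F⟮x⁻¹⟯ : IntermediateField F k) = F⟮x⟯ := by
  apply le_antisymm
  · rw [adjoin_simple_le_iff]
    exact inv_mem (mem_adjoin_simple_self F x)
  · rw [adjoin_simple_le_iff]
    have h := inv_mem (mem_adjoin_simple_self F x⁻¹)
    rwa [inv_inv] at h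

private theorem coeff_zero_ne {F k : Type} [Field F] [Field k] [Algebra F k] {x : k}
    (hx : x ≠ 0) (hi : IsIntegral F x) : (minpoly F x).coeff 0 ≠ 0 :=
  minpoly.coeff_zero_ne_zero hi hx

private theorem minpoly_inv {F k : Type} [Field F] [Field k] [Algebra F k] {x : k}
    (hx : x ≠ 0) (hi : IsIntegral F x) :
    minpoly F x⁻¹ = C ((minpoly F x).coeff 0)⁻¹ * (minpoly F x).reverse := by
  have hc := coeff_zero_ne hx hi
  have hP0 : minpoly F x ≠ 0 := minpoly.ne_zero hi
  have hi' : IsIntegral F x⁻¹ := by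
    rw [← isAlgebraic_iff_isIntegral] at hi ⊢
    exact hi.inv
  have htr : (minpoly F x).natTrailingDegree = 0 := by
    rw [natTrailingDegree_eq_zero]
    exact Or.inr hc
  have hdeg : (minpoly F x).reverse.natDegree = (minpoly F x).natDegree := by
    rw [reverse_natDegree, htr, Nat.sub_zero]
  have hdegQ : (C ((minpoly F x).coeff 0)⁻¹ * (minpoly F x).reverse).natDegree =
      (minpoly F x).natDegree := by
    rw [natDegree_C_mul (inv_ne_zero hc), hdeg]
  have hmon : (C ((minpoly F x).coeff 0)⁻¹ * (minpoly F x).reverse).Monic := by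
    rw [Monic, leadingCoeff_mul, leadingCoeff_C, reverse_leadingCoeff, trailingCoeff, htr,
      inv_mul_cancel₀ hc]
  have hdegi : (minpoly F x⁻¹).natDegree = (minpoly F x).natDegree := by
    rw [← adjoin.finrank hi', ← adjoin.finrank hi, adjoin_inv_eq]
  have hroot : aeval x⁻¹ (C ((minpoly F x).coeff 0)⁻¹ * (minpoly F x).reverse) = 0 := by
    rw [map_mul]
    have h1 : aeval x⁻¹ (minpoly F x).reverse = 0 := by
      haveI : Invertible x := invertibleOfNonzero hx
      have h2 := (eval₂_reverse_eq_zero_iff (algebraMap F k) x (minpoly F x)).mpr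
        (minpoly.aeval F x)
      rwa [invOf_eq_inv] at h2
    rw [h1, mul_zero]
  have hdvd := minpoly.dvd F x⁻¹ hroot
  exact (eq_of_monic_of_dvd_of_natDegree_le (minpoly.monic hi') hmon hdvd
    (by rw [hdegQ, hdegi])).symm

private theorem nextCoeff_inv {F k : Type} [Field F] [Field k] [Algebra F k] {x : k}
    (hx : x ≠ 0) (hi : IsIntegral F x) :
    (minpoly F x⁻¹).nextCoeff = (minpoly F x).coeff 1 / (minpoly F x).coeff 0 := by
  have hc := coeff_zero_ne hx hi
  have htr : (minpoly F x).natTrailingDegree = 0 := by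
    rw [natTrailingDegree_eq_zero]
    exact Or.inr hc
  have hdeg : (minpoly F x).reverse.natDegree = (minpoly F x).natDegree := by
    rw [reverse_natDegree, htr, Nat.sub_zero]
  have hpos : 0 < (minpoly F x).natDegree := minpoly.natDegree_pos hi
  rw [minpoly_inv hx hi, nextCoeff_C_mul, nextCoeff_of_natDegree_pos (by rw [hdeg]; exact hpos),
    hdeg, coeff_reverse, revAt_le (by omega)]
  rw [show (minpoly F x).natDegree - ((minpoly F x).natDegree - 1) = 1 by omega]
  rw [div_eq_mul_inv, mul_comm]

/-- The summand in terms of the minimal polynomial. -/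
theorem char_trace (a b : ZMod p) {k : Type} [Field k] [Fintype k] [Algebra (ZMod p) k] {n : ℕ}
    (hn : n ≠ 0) (hk : Nat.card k = p ^ n) {x : k} (hx : x ≠ 0) :
    minpoly (ZMod p) x ∈ Irr p (minpoly (ZMod p) x).natDegree ∧
    (minpoly (ZMod p) x).natDegree ∣ n ∧
    (ZMod.stdAddChar (Algebra.trace (ZMod p) k
      (algebraMap (ZMod p) k a * x + algebraMap (ZMod p) k b * x⁻¹)) : ℂ) =
      eta p a b (minpoly (ZMod p) x) ^ (n / (minpoly (ZMod p) x).natDegree) := by
  have hfin := finrank_eq_n hk
  have hi : IsIntegral (ZMod p) x := IsIntegral.of_finite _ x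
  have hi' : IsIntegral (ZMod p) x⁻¹ := IsIntegral.of_finite _ _
  have hmul := Module.finrank_mul_finrank (ZMod p) (ZMod p)⟮x⟯ k
  rw [adjoin.finrank hi, hfin] at hmul
  have hdpos : 0 < (minpoly (ZMod p) x).natDegree := minpoly.natDegree_pos hi
  refine ⟨?_, ⟨_, hmul.symm⟩, ?_⟩
  · rw [mem_Irr, mem_Mon]
    exact ⟨⟨minpoly.monic hi, rfl, coeff_zero_ne hx hi⟩, minpoly.irreducible hi⟩
  · have hquot : n / (minpoly (ZMod p) x).natDegree = Module.finrank (ZMod p)⟮x⟯ k := by
      rw [← hmul]
      exact Nat.mul_div_cancel_left _ hdpos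
    rw [hquot, eta, ← AddChar.map_nsmul_eq_pow]
    congr 1
    rw [map_add, ← Algebra.smul_def, ← Algebra.smul_def, map_smul, map_smul,
      trace_eq_finrank_mul_minpoly_nextCoeff, trace_eq_finrank_mul_minpoly_nextCoeff,
      nextCoeff_inv hx hi, adjoin_inv_eq, lam, nsmul_eq_mul, smul_eq_mul, smul_eq_mul]
    ring

open Classical in
/-- Number of elements with a given minimal polynomial. -/
theorem card_minpoly {k : Type} [Field k] [Fintype k] [Algebra (ZMod p) k] {n d : ℕ}
    (hn : n ≠ 0) (hk : Nat.card k = p ^ n) (hd : d ∣ n) {P : (ZMod p)[X]} (hP : P ∈ Irr p d) :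
    ((univ : Finset k).filter (fun x => minpoly (ZMod p) x = P)).card = d := by
  rw [mem_Irr, mem_Mon] at hP
  obtain ⟨⟨hmon, hdeg, -⟩, hirr⟩ := hP
  have hsep : P.Separable := PerfectField.separable_of_irreducible hirr
  have hdvd : P ∣ X ^ (Nat.card (ZMod p)) ^ n - X :=
    hirr.natDegree_dvd_iff_dvd_X_pow_card_pow_sub_X.mp (by rw [hdeg]; exact hd)
  have hcard : (Nat.card (ZMod p)) ^ n = Fintype.card k := by
    rw [← Nat.card_eq_fintype_card, hk, Nat.card_eq_fintype_card, ZMod.card]
  have hsplit : Splits (P.map (algebraMap (ZMod p) k)) := by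
    haveI := FiniteField.isSplittingField_sub k (ZMod p)
    refine Splits.of_dvd (IsSplittingField.splits k (X ^ Fintype.card k - X : (ZMod p)[X])) ?_
      (map_dvd (Polynomial.mapRingHom (algebraMap (ZMod p) k)) (by rwa [hcard] at hdvd))
    rw [Polynomial.map_sub, Polynomial.map_pow, Polynomial.map_X]
    exact FiniteField.X_pow_card_sub_X_ne_zero k Fintype.one_lt_card
  have h1 := card_rootSet_eq_natDegree hsep hsplit
  rw [hdeg] at h1
  rw [← h1, ← Set.toFinset_card]
  congr 1
  ext x
  rw [mem_filter, Set.mem_toFinset, mem_rootSet]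
  constructor
  · rintro ⟨-, rfl⟩
    exact ⟨hirr.ne_zero, minpoly.aeval _ _⟩
  · rintro ⟨-, hx⟩
    exact ⟨mem_univ _, (minpoly.eq_of_irreducible_of_monic hirr hx hmon).symm⟩

theorem KS_eq (a b : ZMod p) (k : Type) [Field k] [Fintype k] [Algebra (ZMod p) k] {n : ℕ}
    (hn : n ≠ 0) (hk : Nat.card k = p ^ n) : KS p a b k = Kp p a b n := by
  classical
  rw [KS, Kp]
  rw [← sum_fiberwise_of_maps_to (s := (univ : Finset k).filter (fun x => x ≠ 0))
    (t := n.divisors) (g := fun x => (minpoly (ZMod p) x).natDegree)]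
  · refine sum_congr rfl fun d hd => ?_
    rw [Nat.mem_divisors] at hd
    rw [← sum_fiberwise_of_maps_to (t := Irr p d) (g := fun x => minpoly (ZMod p) x)]
    · refine sum_congr rfl fun P hP => ?_
      have hP' := hP
      rw [mem_Irr, mem_Mon] at hP'
      obtain ⟨⟨hmon, hdeg, hc0⟩, hirr⟩ := hP'
      have hset : (((univ : Finset k).filter (fun x => x ≠ 0)).filter
          (fun x => (minpoly (ZMod p) x).natDegree = d)).filter
          (fun x => minpoly (ZMod p) x = P) =
          (univ : Finset k).filter (fun x => minpoly (ZMod p) x = P) := by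
        ext x
        simp only [mem_filter, mem_univ, true_and]
        constructor
        · rintro ⟨-, h⟩
          exact h
        · intro h
          refine ⟨⟨?_, by rw [h, hdeg]⟩, h⟩
          rintro rfl
          apply hc0
          rw [← h, minpoly.zero, coeff_X_zero]
      rw [hset]
      rw [← card_minpoly hn hk hd.1 hP, ← nsmul_eq_mul, ← sum_const]
      refine sum_congr rfl fun x hx => ?_
      rw [mem_filter] at hx
      have hx0 : x ≠ 0 := by
        rintro rfl
        apply hc0
        rw [← hx.2, minpoly.zero, coeff_X_zero]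
      rw [(char_trace a b hn hk hx0).2.2, hx.2, hdeg, card_minpoly hn hk hd.1 hP]
    · intro x hx
      simp only [mem_filter, mem_univ, true_and] at hx
      have h := (char_trace a b hn hk hx.1).1
      rw [hx.2] at h
      exact h
  · intro x hx
    rw [mem_filter] at hx
    rw [Nat.mem_divisors]
    exact ⟨(char_trace a b hn hk hx.2).2.1, hn⟩

end Pool.Agent.Work.MP_2dba45_nt.Weil
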