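import Mathlib

set_option autoImplicit false

/-!
Module REC (Mathlib only).  `K 2 = 2 p - K 1 ^ 2` and `K n = - K 1 K (n-1) - p K (n-2)` for `n ≥ 3`.
Take complex `α, β` with `α + β = - K 1`, `α β = p`; then `K n = -(α ^ n + β ^ n)` for `n ≥ 1`.
If `|α| > √p` then `|β| < √p`, and `|α| ^ (2μ) ≤ C p ^ μ + |β| ^ (2μ) ≤ (C + 1) p ^ μ` for all large
`μ`, contradiction; so `|α|, |β| ≤ √p`.
-/

namespace Pool.Agent.Work.MP_2dba45_nt.Weil

open Finset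

private theorem root_bound {p : ℝ} (hp : 1 < p) {α β : ℂ} (hab : α * β = p) {C : ℝ} {μ₀ : ℕ}
    (hK : ∀ μ : ℕ, μ₀ ≤ μ → ‖α ^ (2 * μ) + β ^ (2 * μ)‖ ≤ C * p ^ μ) : ‖α‖ ^ 2 ≤ p := by
  by_contra hlt
  push Not at hlt
  have hp0 : 0 < p := by linarith
  have hn : ‖α‖ * ‖β‖ = p := by
    rw [← norm_mul, hab, Complex.norm_real, Real.norm_of_nonneg hp0.le]
  have hβ : ‖β‖ ^ 2 ≤ p := by
    have h1 : ‖α‖ ^ 2 * ‖β‖ ^ 2 = p * p := by rw [← mul_pow, hn]; ring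
    by_contra h2
    push Not at h2
    have h3 : p * p < ‖α‖ ^ 2 * ‖β‖ ^ 2 := by
      apply mul_lt_mul'' hlt h2 hp0.le hp0.le
    linarith
  have hr : 1 < ‖α‖ ^ 2 / p := by rwa [one_lt_div hp0]
  obtain ⟨m, hm⟩ := pow_unbounded_of_one_lt (C + 1) hr
  set μ := max m μ₀ with hμ
  have h1 : C + 1 < (‖α‖ ^ 2 / p) ^ μ :=
    lt_of_lt_of_le hm (pow_le_pow_right₀ hr.le (le_max_left _ _))
  have h2 := hK μ (le_max_right _ _)
  have h3 : ‖α‖ ^ (2 * μ) ≤ ‖α ^ (2 * μ) + β ^ (2 * μ)‖ + ‖β‖ ^ (2 * μ) := by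
    have h4 : α ^ (2 * μ) = (α ^ (2 * μ) + β ^ (2 * μ)) - β ^ (2 * μ) := by ring
    calc ‖α‖ ^ (2 * μ) = ‖α ^ (2 * μ)‖ := (norm_pow _ _).symm
      _ = ‖(α ^ (2 * μ) + β ^ (2 * μ)) - β ^ (2 * μ)‖ := by rw [← h4]
      _ ≤ ‖α ^ (2 * μ) + β ^ (2 * μ)‖ + ‖β ^ (2 * μ)‖ := norm_sub_le _ _
      _ = _ := by rw [norm_pow β]
  have h5 : ‖β‖ ^ (2 * μ) ≤ p ^ μ := by
    rw [pow_mul]
    exact pow_le_pow_left₀ (by positivity) hβ μ
  rw [div_pow, lt_div_iff₀ (pow_pos hp0 μ)] at h1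
  rw [pow_mul] at h3
  have h6 : (C + 1) * p ^ μ = C * p ^ μ + p ^ μ := by ring
  rw [h6] at h1
  linarith

theorem rec_bound {p : ℝ} (hp : 1 < p) {A K : ℕ → ℂ} (hA0 : A 0 = 1) (hA2 : A 2 = p)
    (hA : ∀ n : ℕ, 3 ≤ n → A n = 0)
    (hrec : ∀ n : ℕ, (n : ℂ) * A n = ∑ k ∈ Icc 1 n, K k * A (n - k)) {C : ℝ} {μ₀ : ℕ}
    (hK : ∀ μ : ℕ, μ₀ ≤ μ → ‖K (2 * μ)‖ ≤ C * p ^ μ) : ‖K 1‖ ≤ 2 * Real.sqrt p := by
  have hA1 : A 1 = K 1 := by
    have h := hrec 1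
    simpa [hA0] using h
  have hK2 : K 2 = 2 * p - K 1 ^ 2 := by
    have h := hrec 2
    rw [show Icc 1 2 = ({1, 2} : Finset ℕ) from rfl, sum_pair (by norm_num)] at h
    simp only [hA2, hA1, hA0, show 2 - 1 = 1 from rfl, Nat.sub_self, mul_one] at h
    push_cast at h
    linear_combination -h
  have hrecK : ∀ n : ℕ, K (n + 3) = -(K 1 * K (n + 2)) - p * K (n + 1) := by
    intro n
    have h := hrec (n + 3)
    rw [hA (n + 3) (by omega), mul_zero] at h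
    rw [sum_Icc_succ_top (by omega), sum_Icc_succ_top (by omega)] at h
    rw [sum_Icc_succ_top (by omega)] at h
    have hz : ∑ k ∈ Icc 1 n, K k * A (n + 2 + 1 - k) = 0 := by
      apply sum_eq_zero
      intro k hk
      rw [mem_Icc] at hk
      rw [hA _ (by omega), mul_zero]
    rw [hz] at h
    simp only [show n + 2 + 1 - (n + 1) = 2 by omega, show n + 2 + 1 - (n + 1 + 1) = 1 by omega,
      show n + 2 + 1 - (n + 2 + 1) = 0 by omega, hA2, hA1, hA0] at h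
    have h' : (0 : ℂ) = K (n + 1) * p + K (n + 2) * K 1 + K (n + 3) := by
      simpa using h
    linear_combination -h'
  obtain ⟨s, hs⟩ := IsAlgClosed.exists_pow_nat_eq (K 1 ^ 2 - 4 * (p : ℂ)) (n := 2) (by norm_num)
  set α : ℂ := (-K 1 + s) / 2 with hα
  set β : ℂ := (-K 1 - s) / 2 with hβ
  have hsum : α + β = -K 1 := by rw [hα, hβ]; ring
  have hprod : α * β = p := by
    rw [hα, hβ]
    linear_combination (-1 / 4 : ℂ) * hs
  have hKn : ∀ n : ℕ, K (n + 1) = -(α ^ (n + 1) + β ^ (n + 1)) ∧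
      K (n + 2) = -(α ^ (n + 2) + β ^ (n + 2)) := by
    intro n
    induction n with
    | zero =>
      constructor
      · simp only [zero_add, pow_one]
        linear_combination -hsum
      · simp only [zero_add]
        rw [hK2]
        linear_combination (-(2 : ℂ)) * hprod + (α + β - K 1) * hsum
    | succ n ih =>
      refine ⟨ih.2, ?_⟩
      rw [show n + 1 + 2 = n + 3 by ring, hrecK, ih.1, ih.2]
      linear_combination (α ^ (n + 2) + β ^ (n + 2)) * hsum -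
        (α ^ (n + 1) + β ^ (n + 1)) * hprod
  have hK' : ∀ μ : ℕ, max μ₀ 1 ≤ μ → ‖α ^ (2 * μ) + β ^ (2 * μ)‖ ≤ C * p ^ μ := by
    intro μ hμ
    have h1 : μ₀ ≤ μ := le_trans (le_max_left _ _) hμ
    have h2 : 1 ≤ μ := le_trans (le_max_right _ _) hμ
    have h3 := hK μ h1
    have h4 := (hKn (2 * μ - 1)).1
    rw [show 2 * μ - 1 + 1 = 2 * μ by omega] at h4
    rwa [h4, norm_neg] at h3
  have hα2 := root_bound hp hprod hK'
  have hβ2 : ‖β‖ ^ 2 ≤ p := by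
    refine root_bound hp (α := β) (β := α) (by rw [mul_comm]; exact hprod) (C := C)
      (μ₀ := max μ₀ 1) ?_
    intro μ hμ
    rw [add_comm]
    exact hK' μ hμ
  have h1 : ‖K 1‖ = ‖α + β‖ := by rw [hsum, norm_neg]
  rw [h1]
  have h2 : ‖α‖ ≤ Real.sqrt p := Real.le_sqrt_of_sq_le hα2
  have h3 : ‖β‖ ≤ Real.sqrt p := Real.le_sqrt_of_sq_le hβ2
  calc ‖α + β‖ ≤ ‖α‖ + ‖β‖ := norm_add_le _ _
    _ ≤ 2 * Real.sqrt p := by linarith

end Pool.Agent.Work.MP_2dba45_nt.Weil
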