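import Pool.Agent.Work.MP_2dba45_nt.Weil.Weight

set_option autoImplicit false

/-!
Module PIGEON.  A nonzero family with `Lam = 0`.
-/

namespace Pool.Agent.Work.MP_2dba45_nt.Weil

open Polynomial Finset
open scoped Polynomial.Bivariate

variable {k : Type} [Field k] [Fintype k] {p : ℕ} [Fact p.Prime] [CharP k p]

omit [Fintype k] [Fact p.Prime] [CharP k p] in
theorem box_sub (A : ℕ) (c c' : Fin p × Fin A → k) : box p A (c - c') = box p A c - box p A c' := by
  unfold box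
  rw [← Finset.sum_sub_distrib]
  refine Finset.sum_congr rfl fun s _ => ?_
  rw [← sub_mul, ← C_sub, ← sub_mul, ← C_sub]
  rfl

omit [Fintype k] in
theorem Lam_sub (μ A B : ℕ) (α β d : k) (c c' : Fin B × Fin p → Fin p × Fin A → k) :
    Lam p μ A B α β d (c - c') = Lam p μ A B α β d c - Lam p μ A B α β d c' := by
  unfold Lam
  rw [← sub_modByMonic, ← Finset.sum_sub_distrib]
  congr 1
  refine Finset.sum_congr rfl fun s _ => ?_
  rw [Pi.sub_apply, box_sub, sub_pow_char_pow, sub_mul]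

omit [Fintype k] [CharP k p] in
theorem Wt_Lam {μ A B : ℕ} (hA : 1 ≤ A) (α β d : k) (c : Fin B × Fin p → Fin p × Fin A → k) :
    Wt p (p ^ μ * (p * A + p ^ 2) + p * B + p ^ 2) (Lam p μ A B α β d c) := by
  have hp : 2 ≤ p := (Fact.out : p.Prime).two_le
  unfold Lam
  refine Wt_mod hp α β d (Wt_sum _ fun s _ => ?_)
  have h1 := Wt_mul (Wt_pow (Wt_box hp hA (c s)) (p ^ μ)) (Wt_mul
    (Wt_C (p := p) (natDegree_X_pow_le (R := k) (s.1 : ℕ)))
    (Wt_pow (Wt_Y (k := k) (p := p)) (s.2 : ℕ)))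
  refine Wt_mono ?_ h1
  have h2 : p ^ μ * (p * A + p ^ 2 - p - 1) ≤ p ^ μ * (p * A + p ^ 2) :=
    Nat.mul_le_mul_left _ (by omega)
  have h3 : p * (s.1 : ℕ) ≤ p * B := Nat.mul_le_mul_left _ s.1.isLt.le
  have h4 : (s.2 : ℕ) * (p + 1) ≤ p ^ 2 := by
    have h5 : (s.2 : ℕ) * (p + 1) ≤ (p - 1) * (p + 1) :=
      Nat.mul_le_mul_right _ (by have := s.2.isLt; omega)
    obtain ⟨q, rfl⟩ : ∃ q, p = q + 1 := ⟨p - 1, by omega⟩
    simp only [Nat.add_sub_cancel] at h5
    nlinarith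
  omega

theorem exists_Lam_zero {μ A B N : ℕ} (hA : 1 ≤ A) (hB : 1 ≤ B) (α β d : k)
    (hN : p ^ μ * (p * A + p ^ 2) + p * B + p ^ 2 < p * N) (hcard : p * N < (p * A) * (p * B)) :
    ∃ c : Fin B × Fin p → Fin p × Fin A → k, c ≠ 0 ∧ Lam p μ A B α β d c = 0 := by
  classical
  have _ := hB
  have hp : 2 ≤ p := (Fact.out : p.Prime).two_le
  let Φ : (Fin B × Fin p → Fin p × Fin A → k) → (Fin p × Fin N → k) :=
    fun c s => ((Lam p μ A B α β d c).coeff (s.1 : ℕ)).coeff (s.2 : ℕ)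
  have hlt : Fintype.card (Fin p × Fin N → k)
      < Fintype.card (Fin B × Fin p → Fin p × Fin A → k) := by
    simp only [Fintype.card_fun, Fintype.card_prod, Fintype.card_fin]
    rw [← pow_mul]
    refine Nat.pow_lt_pow_right Fintype.one_lt_card ?_
    calc p * N < (p * A) * (p * B) := hcard
      _ = p * A * (B * p) := by ring
  obtain ⟨c, c', hne, heq⟩ := Fintype.exists_ne_map_eq_of_card_lt Φ hlt
  refine ⟨c - c', sub_ne_zero.2 hne, ?_⟩
  rw [Lam_sub, sub_eq_zero]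
  have hz : ∀ c : Fin B × Fin p → Fin p × Fin A → k, ∀ j i : ℕ, (p ≤ j ∨ N ≤ i) →
      ((Lam p μ A B α β d c).coeff j).coeff i = 0 := by
    intro c j i hji
    by_contra hcon
    rcases hji with hj | hi
    · have h1 : (Lam p μ A B α β d c).natDegree < p := mod_natDegree hp α β d _
      rw [coeff_eq_zero_of_natDegree_lt (lt_of_lt_of_le h1 hj)] at hcon
      simp at hcon
    · have h2 := Wt_Lam (μ := μ) hA α β d c i j hcon
      have h3 : p * N ≤ p * i := Nat.mul_le_mul_left _ hi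
      omega
  ext j i
  by_cases hj : j < p
  · by_cases hi : i < N
    · exact congrFun heq (⟨j, hj⟩, ⟨i, hi⟩)
    · rw [hz c j i (Or.inr (not_lt.1 hi)), hz c' j i (Or.inr (not_lt.1 hi))]
  · rw [hz c j i (Or.inl (not_lt.1 hj)), hz c' j i (Or.inl (not_lt.1 hj))]

end Pool.Agent.Work.MP_2dba45_nt.Weil
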