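import Pool.Agent.Work.MP_2dba45_nt.Weil.Weight

set_option autoImplicit false

/-!
Module POINTS.  Values at the rational points `(x, x y)`, `x ≠ 0`, `y ^ p - y = α x + β / x - d`.
-/

namespace Pool.Agent.Work.MP_2dba45_nt.Weil

open Polynomial Finset
open scoped Polynomial.Bivariate

variable {k : Type} [Field k] [Fintype k] {p : ℕ} [Fact p.Prime] [CharP k p]

omit [Fintype k] [CharP k p] in
theorem eval_Pd {α β d x y : k} (hx : x ≠ 0) (hy : y ^ p - y = α * x + β * x⁻¹ - d) :
    evalEval x (x * y) (Pd p α β d) = 0 := by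
  have hp : 2 ≤ p := (Fact.out : p.Prime).two_le
  obtain ⟨q, rfl⟩ : ∃ q, p = q + 1 := ⟨p - 1, by omega⟩
  have hy' : y ^ (q + 1) = y + α * x + β * x⁻¹ - d := by linear_combination hy
  unfold Pd Qd
  simp only [evalEval_sub, evalEval_add, evalEval_mul, evalEval_C, evalEval_pow, evalEval_X,
    eval_sub, eval_add, eval_mul, eval_pow, eval_X, eval_C, Nat.add_sub_cancel, mul_pow, hy']
  field_simp
  ring

omit [Fintype k] [CharP k p] in
theorem eval_mod {α β d x y : k} (hx : x ≠ 0) (hy : y ^ p - y = α * x + β * x⁻¹ - d)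
    (z : k[X][Y]) : evalEval x (x * y) (z %ₘ Pd p α β d) = evalEval x (x * y) z := by
  conv_rhs => rw [← modByMonic_add_div z (Pd p α β d)]
  rw [evalEval_add, evalEval_mul, eval_Pd hx hy, zero_mul, add_zero]

omit [Fintype k] in
theorem pow_expand (μ : ℕ) (y : k) :
    y ^ (p ^ μ) = y + ∑ t ∈ range μ, (y ^ p - y) ^ (p ^ t) := by
  induction μ with
  | zero => simp
  | succ m ih =>
    rw [Finset.sum_range_succ, ← add_assoc, ← ih, sub_pow_char_pow, ← pow_mul, ← pow_succ']
    ring

omit [Fintype k] in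
theorem eval_G (μ : ℕ) {α β d x y : k} (hx : x ≠ 0) (hy : y ^ p - y = α * x + β * x⁻¹ - d) :
    evalEval x (x * y) (Gpoly p μ α β d) = (x * y) ^ (p ^ μ) := by
  have hp : 2 ≤ p := (Fact.out : p.Prime).two_le
  unfold Gpoly Upoly
  simp only [evalEval_add, evalEval_mul, evalEval_C, evalEval_X, eval_pow, eval_X,
    eval_finsetSum, eval_mul, eval_sub, eval_add, eval_C]
  rw [mul_pow, pow_expand (p := p) μ y, mul_add, Finset.mul_sum, ← mul_assoc, ← pow_succ,
    Nat.sub_add_cancel (Nat.one_le_iff_ne_zero.2 (pow_ne_zero _ (by omega)))]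
  congr 1
  refine Finset.sum_congr rfl fun t ht => ?_
  rw [mem_range] at ht
  have h1 : α * x ^ 2 + β - d * x = x * (y ^ p - y) := by
    rw [hy]; field_simp
  have h2 : p ^ t ≤ p ^ μ := Nat.pow_le_pow_right (by omega) ht.le
  rw [h1, mul_pow, ← mul_assoc, ← pow_add, Nat.sub_add_cancel h2]

theorem Haux_eval {μ A B : ℕ} (hk : Fintype.card k = p ^ (2 * μ)) {α β d : k}
    {c : Fin B × Fin p → Fin p × Fin A → k} (hc : Lam p μ A B α β d c = 0) {x y : k} (hx : x ≠ 0)
    (hy : y ^ p - y = α * x + β * x⁻¹ - d) :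
    evalEval x (x * y) (Haux p μ A B α β d c) = 0 := by
  have hp : 2 ≤ p := (Fact.out : p.Prime).two_le
  have h1 : evalEval x (x * y) (Haux p μ A B α β d c)
      = ∑ s : Fin B × Fin p, evalEval x (x * y) (box p A (c s))
        * (x ^ (s.1 : ℕ) * (x * y) ^ (s.2 : ℕ)) ^ (p ^ μ) := by
    unfold Haux
    rw [eval_mod hx hy, evalEval_finsetSum]
    refine Finset.sum_congr rfl fun s _ => ?_
    rw [evalEval_mul, evalEval_mul, evalEval_C, evalEval_pow, eval_G μ hx hy, eval_pow, eval_X]
    congr 1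
    rw [mul_pow (x ^ (s.1 : ℕ)), ← pow_mul, ← pow_mul, ← pow_mul, mul_comm (p ^ μ),
      mul_comm (p ^ μ)]
  have h2 : evalEval x (x * y) (Lam p μ A B α β d c)
      = ∑ s : Fin B × Fin p, evalEval x (x * y) (box p A (c s)) ^ (p ^ μ)
        * (x ^ (s.1 : ℕ) * (x * y) ^ (s.2 : ℕ)) := by
    unfold Lam
    rw [eval_mod hx hy, evalEval_finsetSum]
    refine Finset.sum_congr rfl fun s _ => ?_
    rw [evalEval_mul, evalEval_mul, evalEval_C, evalEval_pow, evalEval_pow, eval_pow, eval_X,
      evalEval_X]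
  have h3 : evalEval x (x * y) (Haux p μ A B α β d c) ^ (p ^ μ) = 0 := by
    rw [h1, sum_pow_char_pow, ← evalEval_zero x (x * y), ← hc, h2]
    refine Finset.sum_congr rfl fun s _ => ?_
    rw [mul_pow, ← pow_mul, ← pow_add, ← two_mul, ← hk, FiniteField.pow_card]
  exact pow_eq_zero_iff (pow_ne_zero _ (by omega)) |>.1 h3

omit [Fintype k] [Fact p.Prime] in
theorem count_zeros {H : k[X][Y]} (hH : H ≠ 0) (hdeg : H.natDegree < p) {W : ℕ} (hW : Wt p W H)
    (T : Finset k) (hT : ∀ x ∈ T, x ≠ 0 ∧ ∃ y : k, ∀ n : ℕ, evalEval x (x * (y + n)) H = 0) :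
    p * T.card ≤ W := by
  classical
  have hz : ∀ x ∈ T, H.map (evalRingHom x) = 0 := by
    intro x hx
    obtain ⟨hx0, y, hy⟩ := hT x hx
    refine eq_zero_of_natDegree_lt_card_of_eval_eq_zero' _
      ((range p).image fun n : ℕ => x * (y + n)) ?_ ?_
    · intro i hi
      obtain ⟨n, _, rfl⟩ := Finset.mem_image.1 hi
      rw [map_evalRingHom_eval]
      exact hy n
    · rw [Finset.card_image_of_injOn, card_range]
      · exact lt_of_le_of_lt natDegree_map_le hdeg
      · intro a ha b hb hab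
        have h1 : ((a : ℕ) : k) = b := add_left_cancel (mul_left_cancel₀ hx0 hab)
        have ha' : a < p := by simpa using ha
        have hb' : b < p := by simpa using hb
        have h2 := (CharP.natCast_eq_natCast (R := k) p).1 h1
        rwa [Nat.ModEq, Nat.mod_eq_of_lt ha', Nat.mod_eq_of_lt hb'] at h2
  obtain ⟨j, hj⟩ : ∃ j, H.coeff j ≠ 0 := by
    by_contra hcon
    push Not at hcon
    exact hH (by ext1 j; simpa using hcon j)
  have hcard : T.card ≤ (H.coeff j).natDegree := by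
    refine card_le_degree_of_subset_roots ?_
    intro x hx
    rw [mem_roots hj]
    have h3 := hz x (by simpa using hx)
    have h4 := congrArg (fun q : k[X] => q.coeff j) h3
    simpa [IsRoot.def] using h4
  have h5 := hW (H.coeff j).natDegree j (by
    rw [← leadingCoeff]
    exact leadingCoeff_ne_zero.2 hj)
  have h6 : p * T.card ≤ p * (H.coeff j).natDegree := Nat.mul_le_mul_left _ hcard
  omega

end Pool.Agent.Work.MP_2dba45_nt.Weil
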