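import Pool.Agent.Work.MP_2dba45_nt.Weil.TopW
import Pool.Agent.Work.MP_2dba45_nt.Weil.Pigeon
import Pool.Agent.Work.MP_2dba45_nt.Weil.Points

set_option autoImplicit false

/-!
Module STEP (assembly of Stepanov's bound).  `r = p ^ (μ - 1) ≥ p ^ 3 ≥ 4 p`, `A = r - p`,
`B = r + 2 p`, `N = p r ^ 2 + B + p + 1`; `p A + p ^ 2 = p r = p ^ μ`.
-/

namespace Pool.Agent.Work.MP_2dba45_nt.Weil

open Polynomial Finset
open scoped Polynomial.Bivariate

variable {k : Type} [Field k] [Fintype k] {p : ℕ} [Fact p.Prime] [CharP k p]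

open Classical in
theorem stepanov {μ : ℕ} (hμ : 4 ≤ μ) (hk : Fintype.card k = p ^ (2 * μ)) {α : k} (hα : α ≠ 0)
    (β d : k) :
    p * ((univ : Finset k).filter
      (fun x => x ≠ 0 ∧ ∃ y : k, y ^ p - y = α * x + β * x⁻¹ - d)).card ≤
      p ^ (2 * μ) + (3 * p ^ 2 + 1) * p ^ μ := by
  have hp : 2 ≤ p := (Fact.out : p.Prime).two_le
  set r := p ^ (μ - 1) with hr
  have hpr : p ^ μ = p * r := by
    rw [hr, ← pow_succ']
    congr 1
    omega
  have hr3 : p ^ 3 ≤ r := Nat.pow_le_pow_right (by omega) (by omega)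
  have hp3 : 4 * p ≤ p ^ 3 := by
    have h4 : 4 ≤ p ^ 2 := by nlinarith
    calc 4 * p ≤ p ^ 2 * p := Nat.mul_le_mul_right p h4
      _ = p ^ 3 := by ring
  obtain ⟨A, hA⟩ : ∃ A, r = A + p := ⟨r - p, by omega⟩
  have hA1 : 1 ≤ A := by omega
  set B := r + 2 * p with hB
  have hB1 : 1 ≤ B := by omega
  have hAp : p * A + p ^ 2 = p ^ μ := by rw [hpr, hA]; ring
  set N := p * r ^ 2 + B + p + 1 with hN
  have h1 : p ^ μ * (p * A + p ^ 2) + p * B + p ^ 2 < p * N := by
    rw [hAp, hpr, hN]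
    nlinarith
  have h2 : p * N < (p * A) * (p * B) := by
    have h3 : N < A * (p * B) := by
      rw [hN, hB]
      obtain ⟨q, rfl⟩ : ∃ q, p = q + 2 := ⟨p - 2, by omega⟩
      obtain ⟨t, ht⟩ : ∃ t, r = (q + 2) ^ 3 + t := ⟨r - (q + 2) ^ 3, by omega⟩
      have hAt : A = (q + 2) ^ 3 + t - (q + 2) := by omega
      have hAt' : (A : ℤ) = (q + 2) ^ 3 + t - (q + 2) := by
        have h5 : A + (q + 2) = (q + 2) ^ 3 + t := by omega
        have h6 : (A : ℤ) + (q + 2) = (q + 2) ^ 3 + t := by exact_mod_cast h5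
        linarith
      zify
      rw [hAt', ht]
      push_cast
      nlinarith [sq_nonneg (q : ℤ), mul_nonneg (Int.natCast_nonneg q) (Int.natCast_nonneg t),
        Int.natCast_nonneg q, Int.natCast_nonneg t, pow_nonneg (Int.natCast_nonneg q) 3,
        pow_nonneg (Int.natCast_nonneg q) 4, pow_nonneg (Int.natCast_nonneg q) 5,
        mul_nonneg (pow_nonneg (Int.natCast_nonneg q) 2) (Int.natCast_nonneg t)]
    calc p * N < p * (A * (p * B)) := Nat.mul_lt_mul_of_pos_left h3 (by omega)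
      _ = (p * A) * (p * B) := by ring
  obtain ⟨c, hc, hL⟩ := exists_Lam_zero (k := k) (p := p) (μ := μ) hA1 hB1 α β d h1 h2
  have hH := Haux_ne_zero (p := p) hp (show 1 ≤ μ by omega) hα β d hA1 hAp.le hc
  have hW := Wt_Haux (p := p) hp (show 1 ≤ μ by omega) hα β d hA1 hB1 c
  have hdeg : (Haux p μ A B α β d c).natDegree < p := mod_natDegree hp α β d _
  have hcount := count_zeros hH hdeg hW ((univ : Finset k).filter
      (fun x => x ≠ 0 ∧ ∃ y : k, y ^ p - y = α * x + β * x⁻¹ - d)) (by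
    intro x hx
    rw [mem_filter] at hx
    obtain ⟨-, hx0, y, hy⟩ := hx
    refine ⟨hx0, y, fun n => ?_⟩
    apply Haux_eval hk hL hx0
    have hfr : ((n : k)) ^ p = n := by rw [← frobenius_def, map_natCast]
    rw [← hy, add_pow_char, hfr]
    ring)
  refine le_trans hcount (le_of_eq ?_)
  rw [hAp, hB, mul_comm 2 μ, pow_mul, hpr]
  ring

end Pool.Agent.Work.MP_2dba45_nt.Weil
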