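import Pool.Agent.Work.MP_2dba45_nt.Weil.Euler
import Pool.Agent.Work.MP_2dba45_nt.Weil.FieldSum
import Pool.Agent.Work.MP_2dba45_nt.Weil.Rec
import Pool.Agent.Work.MP_2dba45_nt.Weil.Step
import Pool.Agent.Work.MP_2dba45_nt.Weil.CharSum

set_option autoImplicit false

/-!
Assembly: the Weil bound for Kloosterman sums modulo a prime.
-/

namespace Pool.Agent.Work.MP_2dba45_nt.Weil

open Polynomial Finset

theorem Kp_bound {p : ℕ} [Fact p.Prime] {a : ZMod p} (ha : a ≠ 0) (b : ZMod p) {μ : ℕ}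
    (hμ : 4 ≤ μ) : ‖Kp p a b (2 * μ)‖ ≤ (3 * (p : ℝ) ^ 2 + 2) * (p : ℝ) ^ μ := by
  classical
  have hn : 2 * μ ≠ 0 := by omega
  haveI : Finite (GaloisField p (2 * μ)) := by
    apply Nat.finite_of_card_ne_zero
    rw [GaloisField.card p (2 * μ) hn]
    exact pow_ne_zero _ (Fact.out : p.Prime).ne_zero
  letI : Fintype (GaloisField p (2 * μ)) := Fintype.ofFinite _
  have hcard : Nat.card (GaloisField p (2 * μ)) = p ^ (2 * μ) := GaloisField.card p (2 * μ) hn
  have hcardF : Fintype.card (GaloisField p (2 * μ)) = p ^ (2 * μ) := by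
    rw [← hcard, Nat.card_eq_fintype_card]
  haveI : CharP (GaloisField p (2 * μ)) p := inferInstance
  rw [← KS_eq a b (GaloisField p (2 * μ)) hn hcard]
  have hinj := (algebraMap (ZMod p) (GaloisField p (2 * μ))).injective
  have ha' : algebraMap (ZMod p) (GaloisField p (2 * μ)) a ≠ 0 := by
    intro h; exact ha (hinj (by rw [h, map_zero]))
  have hp1 : (1 : ℝ) ≤ (p : ℝ) ^ μ := one_le_pow₀ (by
    exact_mod_cast (Fact.out : p.Prime).one_lt.le)
  refine (KS_le a b (E := (3 * (p : ℝ) ^ 2 + 1) * (p : ℝ) ^ μ) ?_).trans (by nlinarith)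
  intro d
  have h1 := stepanov (p := p) hμ hcardF ha' (algebraMap (ZMod p) (GaloisField p (2 * μ)) b) d
  rw [hcardF]
  push_cast
  exact_mod_cast h1

/-- The Weil bound. -/
theorem weil (p : ℕ) [Fact p.Prime] (a b : ZMod p) (hb : b ≠ 0) :
    ‖∑ x ∈ (Finset.univ : Finset (ZMod p)).erase 0,
      (ZMod.stdAddChar (a * x + b * x⁻¹) : ℂ)‖ ≤ 2 * Real.sqrt p := by
  classical
  have hp : (1 : ℝ) < p := by exact_mod_cast (Fact.out : p.Prime).one_lt
  by_cases ha : a = 0
  · -- a Ramanujan sum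
    have h0 : ∑ x : ZMod p, (ZMod.stdAddChar (b * x) : ℂ) = 0 := by
      have h1 : (AddChar.mulShift (ZMod.stdAddChar (N := p)) b) ≠ 1 :=
        ZMod.isPrimitive_stdAddChar p hb
      have h2 := AddChar.sum_eq_zero_of_ne_one h1
      simpa [AddChar.mulShift_apply] using h2
    have h3 : ∑ x ∈ (univ : Finset (ZMod p)).erase 0,
        (ZMod.stdAddChar (a * x + b * x⁻¹) : ℂ) =
        ∑ x ∈ (univ : Finset (ZMod p)).erase 0, (ZMod.stdAddChar (b * x) : ℂ) := by
      refine Finset.sum_nbij' (fun x => x⁻¹) (fun x => x⁻¹) ?_ ?_ ?_ ?_ ?_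
      · intro x hx; simpa using hx
      · intro x hx; simpa using hx
      · intro x _; exact inv_inv x
      · intro x _; exact inv_inv x
      · intro x _; simp [ha]
    rw [h3]
    have h4 := Finset.add_sum_erase (univ : Finset (ZMod p))
      (fun x => (ZMod.stdAddChar (b * x) : ℂ)) (mem_univ 0)
    simp only [mul_zero, AddChar.map_zero_eq_one] at h4
    rw [h0] at h4
    have h5 : ∑ x ∈ (univ : Finset (ZMod p)).erase 0, (ZMod.stdAddChar (b * x) : ℂ) = -1 := by
      linear_combination h4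
    rw [h5, norm_neg, norm_one]
    have h6 : 1 ≤ Real.sqrt p := Real.one_le_sqrt.2 hp.le
    linarith
  · have hmain := rec_bound (p := (p : ℝ)) hp (A := Asum p a b) (K := Kp p a b) (Asum_zero a b)
      (by rw [Asum_two ha hb]; norm_cast) (fun n hn => Asum_ge b ha hn) (euler a b)
      (C := 3 * (p : ℝ) ^ 2 + 2) (μ₀ := 4) (fun μ hμ => Kp_bound ha b hμ)
    have hK1 : ∑ x ∈ (univ : Finset (ZMod p)).erase 0,
        (ZMod.stdAddChar (a * x + b * x⁻¹) : ℂ) = Kp p a b 1 := by
      rw [← KS_eq a b (ZMod p) one_ne_zero (by rw [Nat.card_eq_fintype_card, ZMod.card, pow_one])]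
      unfold KS
      refine Finset.sum_congr ?_ ?_
      · ext x; simp
      · intro x _
        rw [Algebra.trace_self_apply]
        rfl
    rw [hK1]
    exact hmain

end Pool.Agent.Work.MP_2dba45_nt.Weil
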