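import Mathlib

set_option autoImplicit false

/-!
Definitions for the Weil bound of Kloosterman sums over prime fields (Stepanov-Bombieri for the
curve `y ^ p - y = a x + b / x - d`, and the degree two `L`-function).
-/

namespace Pool.Agent.Work.MP_2dba45_nt.Weil

open Polynomial Finset
open scoped Polynomial.Bivariate

section Lfunction

variable (p : ℕ) [Fact p.Prime]

/-- `a * (sum of the roots) + b * (sum of the inverses of the roots)` for a monic polynomial with
nonzero constant term. -/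
noncomputable def lam (a b : ZMod p) (f : (ZMod p)[X]) : ZMod p :=
  -(a * f.nextCoeff + b * (f.coeff 1 / f.coeff 0))

/-- The completely multiplicative function of the `L`-function. -/
noncomputable def eta (a b : ZMod p) (f : (ZMod p)[X]) : ℂ := ZMod.stdAddChar (lam p a b f)

/-- `X ^ m + ∑ i < m, c i X ^ i`. -/
noncomputable def mkPoly (m : ℕ) (c : Fin m → ZMod p) : (ZMod p)[X] :=
  X ^ m + ∑ i : Fin m, C (c i) * X ^ (i : ℕ)

open Classical in
/-- Monic polynomials of degree `m` with nonzero constant term. -/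
noncomputable def Mon (m : ℕ) : Finset (ZMod p)[X] :=
  (univ.image (mkPoly p m)).filter (fun f => f.coeff 0 ≠ 0)

open Classical in
/-- Irreducible elements of `Mon p d`. -/
noncomputable def Irr (d : ℕ) : Finset (ZMod p)[X] := (Mon p d).filter Irreducible

/-- Coefficients of the `L`-function. -/
noncomputable def Asum (a b : ZMod p) (m : ℕ) : ℂ := ∑ f ∈ Mon p m, eta p a b f

/-- The sums over the extension fields, in terms of irreducible polynomials. -/
noncomputable def Kp (a b : ZMod p) (n : ℕ) : ℂ :=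
  ∑ d ∈ n.divisors, ∑ P ∈ Irr p d, (d : ℂ) * eta p a b P ^ (n / d)

open Classical in
/-- The Kloosterman sum over a finite extension `k` of `ZMod p`. -/
noncomputable def KS (a b : ZMod p) (k : Type) [Field k] [Fintype k] [Algebra (ZMod p) k] : ℂ :=
  ∑ x ∈ (univ : Finset k).filter (fun x => x ≠ 0),
    (ZMod.stdAddChar (Algebra.trace (ZMod p) k
      (algebraMap (ZMod p) k a * x + algebraMap (ZMod p) k b * x⁻¹)) : ℂ)

end Lfunction

section Stepanov

variable {k : Type} [Field k]

/-- All monomials `X ^ i * Y ^ j` of `z` have weight `p i + (p + 1) j ≤ W`. -/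
def Wt (p W : ℕ) (z : k[X][Y]) : Prop :=
  ∀ i j, (z.coeff j).coeff i ≠ 0 → p * i + (p + 1) * j ≤ W

/-- The right-hand side of the equation of the curve, a polynomial of degree one in `Y`. -/
noncomputable def Qd (p : ℕ) (α β d : k) : k[X][Y] :=
  C (X ^ (p - 1)) * Y + C (C α * X ^ (p + 1) + C β * X ^ (p - 1) - C d * X ^ p)

/-- The equation of the curve in the coordinates `x`, `x y`. -/
noncomputable def Pd (p : ℕ) (α β d : k) : k[X][Y] := Y ^ p - Qd p α β d

/-- `X ^ (p ^ μ) * ∑ t < μ, (α X + β / X - d) ^ (p ^ t)`. -/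
noncomputable def Upoly (p μ : ℕ) (α β d : k) : k[X] :=
  ∑ t ∈ range μ, X ^ (p ^ μ - p ^ t) * (C α * X ^ 2 + C β - C d * X) ^ (p ^ t)

/-- `Y ^ (p ^ μ)` modulo the equation of the curve. -/
noncomputable def Gpoly (p μ : ℕ) (α β d : k) : k[X][Y] :=
  C (X ^ (p ^ μ - 1)) * Y + C (Upoly p μ α β d)

/-- Polynomials with `deg_X < A` and `deg_Y < p`. -/
noncomputable def box (p A : ℕ) (c : Fin p × Fin A → k) : k[X][Y] :=
  ∑ s : Fin p × Fin A, C (C (c s) * X ^ (s.2 : ℕ)) * Y ^ (s.1 : ℕ)

/-- The relation `∑ f_s ^ (p ^ μ) * s = 0`. -/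
noncomputable def Lam (p μ A B : ℕ) (α β d : k) (c : Fin B × Fin p → Fin p × Fin A → k) :
    k[X][Y] :=
  (∑ s : Fin B × Fin p, box p A (c s) ^ (p ^ μ) * (C (X ^ (s.1 : ℕ)) * Y ^ (s.2 : ℕ))) %ₘ
    Pd p α β d

/-- The auxiliary function `∑ f_s * s ^ (p ^ μ)`. -/
noncomputable def Haux (p μ A B : ℕ) (α β d : k) (c : Fin B × Fin p → Fin p × Fin A → k) :
    k[X][Y] :=
  (∑ s : Fin B × Fin p, box p A (c s) * (C (X ^ (p ^ μ * (s.1 : ℕ))) *
    Gpoly p μ α β d ^ (s.2 : ℕ))) %ₘ Pd p α β d

/-- `z` is reduced and its highest weight is exactly `W`. -/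
def Top (p W : ℕ) (z : k[X][Y]) : Prop :=
  z.natDegree < p ∧ Wt p W z ∧ ∃ i j, p * i + (p + 1) * j = W ∧ (z.coeff j).coeff i ≠ 0

end Stepanov

end Pool.Agent.Work.MP_2dba45_nt.Weil
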