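import Pool.Agent.Work.MP_2dba45_nt.Weil.Mon

set_option autoImplicit false

/-!
Module EULER.  Logarithmic derivative of the Euler product.
-/

namespace Pool.Agent.Work.MP_2dba45_nt.Weil

open Polynomial Finset UniqueFactorizationMonoid

variable {p : ℕ} [Fact p.Prime]

open Classical in
private theorem eu_dvd_iff {f P : (ZMod p)[X]} (hf : f ≠ 0) (hP : P.Monic) (hi : Irreducible P)
    (j : ℕ) : P ^ j ∣ f ↔ j ≤ (normalizedFactors f).count P := by
  rw [dvd_iff_normalizedFactors_le_normalizedFactors (pow_ne_zero _ hP.ne_zero) hf,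
    normalizedFactors_pow, normalizedFactors_irreducible hi, hP.normalize_eq_self,
    Multiset.nsmul_singleton, Multiset.le_count_iff_replicate_le]

open Classical in
private theorem eu_count {n : ℕ} {f : (ZMod p)[X]} (hf : f.Monic) (hn : f.natDegree = n) :
    ∑ P ∈ (normalizedFactors f).toFinset, (normalizedFactors f).count P * P.natDegree = n := by
  have hmon : ∀ P ∈ normalizedFactors f, P.Monic := by
    intro P hP
    have h1 := normalize_normalized_factor P hP
    have h2 := (irreducible_of_normalized_factor P hP).ne_zero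
    rw [← h1]
    exact monic_normalize h2
  have h0 : (normalizedFactors f).prod.Monic := by
    have := monic_multiset_prod_of_monic (normalizedFactors f) id hmon
    rwa [Multiset.map_id] at this
  have h1 : (normalizedFactors f).prod = f :=
    eq_of_monic_of_associated h0 hf (prod_normalizedFactors hf.ne_zero)
  have h2 := natDegree_multiset_prod_of_monic (normalizedFactors f) hmon
  rw [h1, hn, Finset.sum_multiset_map_count] at h2
  rw [h2]
  rfl

open Classical in
/-- Counting the prime powers dividing `f`. -/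
theorem sum_prime_powers {n : ℕ} {f : (ZMod p)[X]} (hf : f ∈ Mon p n) :
    ∑ k ∈ Icc 1 n, ∑ d ∈ k.divisors, ∑ P ∈ (Irr p d).filter (fun P => P ^ (k / d) ∣ f), d = n := by
  rw [mem_Mon] at hf
  obtain ⟨hf1, hf2, hf3⟩ := hf
  have hf0 : f ≠ 0 := hf1.ne_zero
  have hcount := eu_count hf1 hf2
  have e1 : ∀ P ∈ (normalizedFactors f).toFinset,
      (normalizedFactors f).count P * P.natDegree =
        ∑ j ∈ (Icc 1 n).filter (fun j => P ^ j ∣ f), P.natDegree := by
    intro P hP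
    rw [Multiset.mem_toFinset] at hP
    have hi := irreducible_of_normalized_factor P hP
    have hm : P.Monic := by
      rw [← normalize_normalized_factor P hP]
      exact monic_normalize hi.ne_zero
    rw [Finset.sum_const, smul_eq_mul]
    congr 1
    have h1 : (Icc 1 n).filter (fun j => P ^ j ∣ f) = Icc 1 ((normalizedFactors f).count P) := by
      ext j
      rw [mem_filter, mem_Icc, mem_Icc, eu_dvd_iff hf0 hm hi]
      constructor
      · rintro ⟨⟨h2, _⟩, h3⟩
        exact ⟨h2, h3⟩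
      · rintro ⟨h2, h3⟩
        refine ⟨⟨h2, ?_⟩, h3⟩
        have h4 : P ^ j ∣ f := (eu_dvd_iff hf0 hm hi j).2 h3
        have h5 := natDegree_le_of_dvd h4 hf0
        rw [natDegree_pow, hf2] at h5
        have h6 : 1 ≤ P.natDegree := hi.natDegree_pos
        nlinarith
    rw [h1, Nat.card_Icc]
    omega
  rw [Finset.sum_congr rfl e1] at hcount
  refine Eq.trans ?_ hcount
  rw [Finset.sum_sigma', Finset.sum_sigma', Finset.sum_sigma']
  refine Finset.sum_nbij' (fun x => ⟨x.2, x.1.1 / x.1.2⟩)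
    (fun y => ⟨⟨y.1.natDegree * y.2, y.1.natDegree⟩, y.1⟩) ?_ ?_ ?_ ?_ ?_
  · rintro ⟨⟨k, d⟩, P⟩ hx
    simp only [mem_sigma, mem_filter, mem_Icc, Nat.mem_divisors] at hx ⊢
    obtain ⟨⟨⟨hk1, hkn⟩, hd, _⟩, hP, hdiv⟩ := hx
    rw [mem_Irr, mem_Mon] at hP
    obtain ⟨⟨hP1, hP2, hP3⟩, hP4⟩ := hP
    have hd0 : 0 < d := Nat.pos_of_dvd_of_pos hd hk1
    have hj : 1 ≤ k / d := Nat.div_pos (Nat.le_of_dvd hk1 hd) hd0
    refine ⟨?_, ⟨hj, (Nat.div_le_self _ _).trans hkn⟩, hdiv⟩
    rw [Multiset.mem_toFinset, ← Multiset.one_le_count_iff_mem]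
    exact hj.trans ((eu_dvd_iff hf0 hP1 hP4 _).1 hdiv)
  · rintro ⟨P, j⟩ hx
    simp only [mem_sigma, mem_filter, mem_Icc, Nat.mem_divisors, Multiset.mem_toFinset] at hx ⊢
    obtain ⟨hP, ⟨hj1, hjn⟩, hdiv⟩ := hx
    have hi := irreducible_of_normalized_factor P hP
    have hm : P.Monic := by
      rw [← normalize_normalized_factor P hP]
      exact monic_normalize hi.ne_zero
    have hpos : 1 ≤ P.natDegree := hi.natDegree_pos
    have h5 := natDegree_le_of_dvd hdiv hf0
    rw [natDegree_pow, hf2] at h5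
    refine ⟨⟨⟨Nat.mul_pos hpos hj1, ?_⟩, Dvd.intro _ rfl, ?_⟩, ?_, ?_⟩
    · rwa [mul_comm]
    · exact (Nat.mul_pos hpos hj1).ne'
    · rw [mem_Irr, mem_Mon]
      refine ⟨⟨hm, rfl, ?_⟩, hi⟩
      intro h0
      apply hf3
      obtain ⟨g, hg⟩ := dvd_of_mem_normalizedFactors hP
      rw [hg, mul_coeff_zero, h0, zero_mul]
    · rwa [Nat.mul_div_cancel_left _ hpos]
  · rintro ⟨⟨k, d⟩, P⟩ hx
    simp only [mem_sigma, mem_filter, mem_Icc, Nat.mem_divisors] at hx
    obtain ⟨⟨⟨hk1, hkn⟩, hd, _⟩, hP, hdiv⟩ := hx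
    rw [mem_Irr, mem_Mon] at hP
    obtain ⟨⟨hP1, hP2, hP3⟩, hP4⟩ := hP
    simp only [hP2, Nat.mul_div_cancel' hd]
  · rintro ⟨P, j⟩ hx
    simp only [mem_sigma, mem_filter, mem_Icc, Multiset.mem_toFinset] at hx
    have hi := irreducible_of_normalized_factor P hx.1
    simp only [Nat.mul_div_cancel_left _ hi.natDegree_pos]
  · rintro ⟨⟨k, d⟩, P⟩ hx
    simp only [mem_sigma, mem_filter] at hx
    obtain ⟨_, hP, _⟩ := hx
    rw [mem_Irr, mem_Mon] at hP
    exact hP.1.2.1.symm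

open Classical in
theorem sum_multiples (a b : ZMod p) {n d k : ℕ} (hk : k ≤ n) (hd : d ∣ k) (hk1 : 1 ≤ k)
    {P : (ZMod p)[X]} (hP : P ∈ Irr p d) :
    ∑ f ∈ (Mon p n).filter (fun f => P ^ (k / d) ∣ f), eta p a b f =
      eta p a b P ^ (k / d) * Asum p a b (n - k) := by
  rw [mem_Irr, mem_Mon] at hP
  obtain ⟨⟨hP1, hP2, hP3⟩, hP4⟩ := hP
  have hcoe : ∀ n : ℕ, (P ^ n).coeff 0 ≠ 0 := by
    intro n
    rw [coeff_zero_eq_eval_zero, eval_pow, ← coeff_zero_eq_eval_zero]
    exact pow_ne_zero _ hP3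
  have hdeg : (P ^ (k / d)).natDegree = k := by
    rw [natDegree_pow, hP2, Nat.div_mul_cancel hd]
  have hne : P ^ (k / d) ≠ 0 := pow_ne_zero _ hP1.ne_zero
  unfold Asum
  rw [← eta_pow a b hP1 hP3, Finset.mul_sum]
  symm
  refine Finset.sum_bij (fun g _ => P ^ (k / d) * g) ?_ ?_ ?_ ?_
  · intro g hg
    rw [mem_Mon] at hg
    rw [mem_filter, mem_Mon]
    refine ⟨⟨(hP1.pow _).mul hg.1, ?_, ?_⟩, Dvd.intro _ rfl⟩
    · rw [(hP1.pow _).natDegree_mul hg.1, hdeg, hg.2.1]
      omega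
    · rw [mul_coeff_zero]
      exact mul_ne_zero (hcoe _) hg.2.2
  · intro g _ g' _ h
    exact mul_left_cancel₀ hne h
  · intro f hf
    rw [mem_filter, mem_Mon] at hf
    obtain ⟨⟨hf1, hf2, hf3⟩, g, rfl⟩ := hf
    have hg : g.Monic := (hP1.pow _).of_mul_monic_left hf1
    refine ⟨g, ?_, rfl⟩
    rw [mem_Mon]
    refine ⟨hg, ?_, ?_⟩
    · rw [(hP1.pow _).natDegree_mul hg, hdeg] at hf2
      omega
    · intro h0
      apply hf3
      rw [mul_coeff_zero, h0, mul_zero]
  · intro g hg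
    rw [mem_Mon] at hg
    rw [eta_mul a b (hP1.pow _) hg.1 (hcoe _) hg.2.2]

theorem euler (a b : ZMod p) (n : ℕ) :
    (n : ℂ) * Asum p a b n = ∑ k ∈ Icc 1 n, Kp p a b k * Asum p a b (n - k) := by
  classical
  have e1 : (n : ℂ) * Asum p a b n = ∑ f ∈ Mon p n, ∑ k ∈ Icc 1 n, ∑ d ∈ k.divisors,
      ∑ P ∈ Irr p d, (if P ^ (k / d) ∣ f then (d : ℂ) * eta p a b f else 0) := by
    unfold Asum
    rw [Finset.mul_sum]
    refine Finset.sum_congr rfl fun f hf => ?_
    conv_lhs => rw [← sum_prime_powers hf]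
    push_cast
    rw [Finset.sum_mul]
    refine Finset.sum_congr rfl fun k _ => ?_
    rw [Finset.sum_mul]
    refine Finset.sum_congr rfl fun d _ => ?_
    rw [Finset.sum_mul, Finset.sum_filter]
  rw [e1, Finset.sum_comm]
  refine Finset.sum_congr rfl fun k hk => ?_
  rw [mem_Icc] at hk
  unfold Kp
  rw [Finset.sum_comm, Finset.sum_mul]
  refine Finset.sum_congr rfl fun d hd => ?_
  rw [Finset.sum_comm, Finset.sum_mul]
  refine Finset.sum_congr rfl fun P hP => ?_
  rw [← Finset.sum_filter, ← Finset.mul_sum,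
    sum_multiples a b hk.2 (Nat.dvd_of_mem_divisors hd) hk.1 hP]
  ring

end Pool.Agent.Work.MP_2dba45_nt.Weil
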