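import Pool.Agent.Work.MP_2dba45_nt.Weil.Defs

set_option autoImplicit false

/-!
Module MON.
-/

namespace Pool.Agent.Work.MP_2dba45_nt.Weil

open Polynomial Finset

variable {p : ℕ} [Fact p.Prime]

private theorem mon_deg_lt {m : ℕ} (c : Fin m → ZMod p) :
    (∑ i : Fin m, C (c i) * X ^ (i : ℕ) : (ZMod p)[X]).degree < m :=
  degree_sum_fin_lt c

theorem mem_Mon {m : ℕ} {f : (ZMod p)[X]} :
    f ∈ Mon p m ↔ f.Monic ∧ f.natDegree = m ∧ f.coeff 0 ≠ 0 := by
  classical
  unfold Mon
  rw [mem_filter, mem_image]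
  constructor
  · rintro ⟨⟨c, _, rfl⟩, h0⟩
    refine ⟨monic_X_pow_add (mon_deg_lt c), ?_, h0⟩
    unfold mkPoly
    rw [natDegree_add_eq_left_of_degree_lt, natDegree_X_pow]
    rw [degree_X_pow]
    exact mon_deg_lt c
  · rintro ⟨h1, h2, h3⟩
    refine ⟨⟨fun i => f.coeff i, mem_univ _, ?_⟩, h3⟩
    unfold mkPoly
    conv_rhs => rw [h1.as_sum]
    rw [h2, Finset.sum_range (fun i => C (f.coeff i) * X ^ i)]

theorem mem_Irr {m : ℕ} {f : (ZMod p)[X]} :
    f ∈ Irr p m ↔ f ∈ Mon p m ∧ Irreducible f := by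
  classical
  unfold Irr
  rw [mem_filter]

theorem eta_mul (a b : ZMod p) {f g : (ZMod p)[X]} (hf : f.Monic) (hg : g.Monic)
    (hf0 : f.coeff 0 ≠ 0) (hg0 : g.coeff 0 ≠ 0) :
    eta p a b (f * g) = eta p a b f * eta p a b g := by
  have h : lam p a b (f * g) = lam p a b f + lam p a b g := by
    unfold lam
    rw [hf.nextCoeff_mul hg, mul_coeff_zero, mul_coeff_one]
    field_simp
    ring
  unfold eta
  rw [h, AddChar.map_add_eq_mul]

private theorem eta_one (a b : ZMod p) : eta p a b 1 = 1 := by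
  have h : lam p a b 1 = 0 := by
    unfold lam
    have h1 : (1 : (ZMod p)[X]).nextCoeff = 0 := by
      rw [← map_one (C : ZMod p →+* (ZMod p)[X]), nextCoeff_C_eq_zero]
    rw [h1, coeff_one]
    simp
  unfold eta
  rw [h, AddChar.map_zero_eq_one]

theorem eta_pow (a b : ZMod p) {f : (ZMod p)[X]} (hf : f.Monic) (hf0 : f.coeff 0 ≠ 0) (n : ℕ) :
    eta p a b (f ^ n) = eta p a b f ^ n := by
  have h0 : ∀ n : ℕ, (f ^ n).coeff 0 ≠ 0 := by
    intro n
    rw [coeff_zero_eq_eval_zero, eval_pow, ← coeff_zero_eq_eval_zero]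
    exact pow_ne_zero _ hf0
  induction n with
  | zero => rw [pow_zero, pow_zero, eta_one]
  | succ n ih => rw [pow_succ, pow_succ, eta_mul a b (hf.pow n) hf (h0 n) hf0, ih]

theorem Asum_zero (a b : ZMod p) : Asum p a b 0 = 1 := by
  have h : Mon p 0 = {1} := by
    ext f
    rw [mem_Mon, mem_singleton]
    constructor
    · rintro ⟨h1, h2, _⟩
      exact h1.natDegree_eq_zero.1 h2
    · rintro rfl
      exact ⟨monic_one, natDegree_one, by simp⟩
  unfold Asum
  rw [h, sum_singleton, eta_one]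

private theorem psi_ne {a : ZMod p} (ha : a ≠ 0) : (ZMod.stdAddChar (-a) : ℂ) ≠ 1 := by
  intro h
  rw [← (ZMod.stdAddChar (N := p)).map_zero_eq_one, ZMod.injective_stdAddChar.eq_iff] at h
  exact ha (neg_eq_zero.1 h)

theorem Asum_two {a b : ZMod p} (ha : a ≠ 0) (hb : b ≠ 0) : Asum p a b 2 = p := by
  classical
  -- parametrisation by the two coefficients
  have key : Asum p a b 2 = ∑ c0 ∈ (univ : Finset (ZMod p)).filter (fun c => c ≠ 0),
      ∑ c1 : ZMod p, (ZMod.stdAddChar (c1 * (-(a + b / c0))) : ℂ) := by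
    unfold Asum
    rw [← Finset.sum_product']
    refine Finset.sum_nbij' (fun f => (f.coeff 0, f.coeff 1))
      (fun c => X ^ 2 + C c.2 * X + C c.1) ?_ ?_ ?_ ?_ ?_
    · intro f hf
      rw [mem_Mon] at hf
      simp only [mem_product, mem_filter, mem_univ, true_and, and_true]
      exact hf.2.2
    · intro c hc
      simp only [mem_product, mem_filter, mem_univ, true_and, and_true] at hc
      rw [mem_Mon]
      have e1 : (X ^ 2 + C c.2 * X + C c.1 : (ZMod p)[X]) =
          C 1 * X ^ 2 + C c.2 * X + C c.1 := by simp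
      refine ⟨?_, ?_, ?_⟩
      · rw [e1, Monic, leadingCoeff_quadratic one_ne_zero]
      · rw [e1, natDegree_quadratic one_ne_zero]
      · simpa using hc
    · intro f hf
      rw [mem_Mon] at hf
      have h1 := hf.1.as_sum
      rw [hf.2.1] at h1
      simp only [Finset.sum_range_succ, Finset.sum_range_zero, zero_add, pow_zero, mul_one,
        pow_one] at h1
      conv_rhs => rw [h1]
      ring
    · intro c _
      ext <;> simp [coeff_X, coeff_C]
    · intro f hf
      rw [mem_Mon] at hf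
      unfold eta lam
      congr 1
      have h2 : f.nextCoeff = f.coeff 1 := by
        rw [nextCoeff_of_natDegree_pos (by rw [hf.2.1]; norm_num), hf.2.1]
      rw [h2]
      ring
  rw [key]
  have hin : ∀ c0 : ZMod p, ∑ c1 : ZMod p, (ZMod.stdAddChar (c1 * (-(a + b / c0))) : ℂ) =
      if a + b / c0 = 0 then (p : ℂ) else 0 := by
    intro c0
    have := AddChar.sum_mulShift (-(a + b / c0)) (ZMod.isPrimitive_stdAddChar p)
    rw [ZMod.card] at this
    rw [this]
    simp only [neg_eq_zero]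
    split_ifs <;> simp
  simp only [hin]
  rw [Finset.sum_eq_single (-b / a)]
  · rw [if_pos]
    field_simp
    ring
  · intro c hc hne
    rw [mem_filter] at hc
    rw [if_neg]
    intro h
    apply hne
    have hc0 := hc.2
    field_simp at h ⊢
    linear_combination h
  · intro h
    exfalso
    apply h
    rw [mem_filter]
    exact ⟨mem_univ _, div_ne_zero (neg_ne_zero.2 hb) ha⟩

theorem Asum_ge {a : ZMod p} (b : ZMod p) (ha : a ≠ 0) {m : ℕ} (hm : 3 ≤ m) :
    Asum p a b m = 0 := by
  have hlt : ∀ f : (ZMod p)[X], f ∈ Mon p m → (X ^ (m - 1) : (ZMod p)[X]).degree < f.degree := by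
    intro f hf
    rw [mem_Mon] at hf
    rw [degree_X_pow, degree_eq_natDegree hf.1.ne_zero, hf.2.1]
    exact_mod_cast (by omega : m - 1 < m)
  have hmem : ∀ f : (ZMod p)[X], f ∈ Mon p m → ∀ t : ZMod p, f + C t * X ^ (m - 1) ∈ Mon p m := by
    intro f hf t
    have h0 := hlt f hf
    rw [mem_Mon] at hf ⊢
    have hdeg : (C t * X ^ (m - 1) : (ZMod p)[X]).degree < f.degree := by
      refine lt_of_le_of_lt (degree_C_mul_X_pow_le _ _) ?_
      rwa [degree_X_pow] at h0
    refine ⟨hf.1.add_of_left hdeg, ?_, ?_⟩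
    · rw [natDegree_add_eq_left_of_degree_lt hdeg, hf.2.1]
    · rw [coeff_add, coeff_C_mul, coeff_X_pow, if_neg (by omega)]
      simpa using hf.2.2
  have hshift : Asum p a b m = (ZMod.stdAddChar (-a) : ℂ) * Asum p a b m := by
    unfold Asum
    rw [Finset.mul_sum]
    symm
    refine Finset.sum_nbij' (fun f => f + C 1 * X ^ (m - 1)) (fun f => f + C (-1) * X ^ (m - 1))
      (fun f hf => hmem f hf 1) (fun f hf => hmem f hf (-1)) ?_ ?_ ?_
    · intro f _
      simp
    · intro f _
      simp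
    · intro f hf
      have hf' := hmem f hf 1
      rw [mem_Mon] at hf hf'
      unfold eta
      rw [← AddChar.map_add_eq_mul]
      congr 1
      unfold lam
      rw [nextCoeff_of_natDegree_pos (by rw [hf.2.1]; omega),
        nextCoeff_of_natDegree_pos (by rw [hf'.2.1]; omega), hf.2.1, hf'.2.1]
      simp only [coeff_add, coeff_C_mul, coeff_X_pow]
      rw [if_pos trivial, if_neg (by omega : ¬ 1 = m - 1), if_neg (by omega : ¬ 0 = m - 1)]
      ring
  have h1 : (1 - (ZMod.stdAddChar (-a) : ℂ)) * Asum p a b m = 0 := by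
    linear_combination hshift
  rcases mul_eq_zero.1 h1 with h | h
  · exact absurd (sub_eq_zero.1 h).symm (psi_ne ha)
  · exact h

end Pool.Agent.Work.MP_2dba45_nt.Weil
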