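import Pool.Agent.Work.MP_2dba45_nt.Weil.Weight

set_option autoImplicit false

/-!
Module TOPW.  The auxiliary function is not zero.
-/

namespace Pool.Agent.Work.MP_2dba45_nt.Weil

open Polynomial Finset
open scoped Polynomial.Bivariate

variable {k : Type} [Field k] {p : ℕ}

/-- A nonzero reduced polynomial has a top weight. -/
theorem exists_Top {z : k[X][Y]} (hz : z ≠ 0) (hdeg : z.natDegree < p) {V : ℕ} (hV : Wt p V z) :
    ∃ W ≤ V, Top p W z := by
  classical
  have hex : ∃ W, Wt p W z := ⟨V, hV⟩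
  refine ⟨Nat.find hex, Nat.find_min' hex hV, hdeg, Nat.find_spec hex, ?_⟩
  by_contra hcon
  push Not at hcon
  have hW := Nat.find_spec hex
  have hmin := fun m => Nat.find_min (m := m) hex
  set W := Nat.find hex with hWdef
  obtain ⟨j, hj⟩ : ∃ j, z.coeff j ≠ 0 := by
    by_contra h
    push Not at h
    exact hz (by ext1 j; simpa using h j)
  obtain ⟨i, hi⟩ : ∃ i, (z.coeff j).coeff i ≠ 0 := by
    by_contra h
    push Not at h
    exact hj (by ext i; simpa using h i)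
  have h1 : W ≠ 0 := by
    intro h0
    have h2 := hW i j hi
    exact hi (hcon i j (by omega))
  refine hmin (W - 1) (by omega) fun a b hab => ?_
  have h3 := hW a b hab
  have h4 : p * a + (p + 1) * b ≠ W := fun h => hab (hcon a b h)
  omega

theorem Top_C_mul {W : ℕ} {z : k[X][Y]} (hz : Top p W z) {U : k[X]} (hU : U ≠ 0) :
    Top p (W + p * U.natDegree) (C U * z) := by
  obtain ⟨h1, h2, i, j, h3, h4⟩ := hz
  have hp : 0 < p := by omega
  refine ⟨lt_of_le_of_lt (natDegree_C_mul_le _ _) h1, ?_, U.natDegree + i, j, ?_, ?_⟩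
  · rw [add_comm]
    exact Wt_mul (Wt_C le_rfl) h2
  · rw [mul_add]; omega
  · have h5 : (z.coeff j).natDegree = i := by
      refine le_antisymm ?_ (le_natDegree_of_ne_zero h4)
      have hne : z.coeff j ≠ 0 := by
        intro h; rw [h] at h4; simp at h4
      have h6 := h2 (z.coeff j).natDegree j (by
        rw [← leadingCoeff]; exact leadingCoeff_ne_zero.2 hne)
      rw [← h3] at h6
      exact Nat.le_of_mul_le_mul_left (by omega) hp
    rw [coeff_C_mul, ← h5, coeff_mul_degree_add_degree]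
    refine mul_ne_zero (leadingCoeff_ne_zero.2 hU) ?_
    rw [leadingCoeff, h5]
    exact h4

theorem Top_add_lt {V W : ℕ} {y z : k[X][Y]} (hy : Top p W y) (hz : Wt p V z)
    (hdz : z.natDegree < p) (hlt : V < W) : Top p W (y + z) := by
  obtain ⟨h1, h2, i, j, h3, h4⟩ := hy
  refine ⟨lt_of_le_of_lt (natDegree_add_le _ _) (max_lt h1 hdz),
    Wt_add h2 (Wt_mono hlt.le hz), i, j, h3, ?_⟩
  have h5 : (z.coeff j).coeff i = 0 := by
    by_contra h
    have := hz i j h
    omega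
  rw [coeff_add, coeff_add, h5, add_zero]
  exact h4

theorem Top_ne_zero {W : ℕ} {z : k[X][Y]} (hz : Top p W z) : z ≠ 0 := by
  rintro rfl
  obtain ⟨_, _, i, j, _, h⟩ := hz
  simp at h

theorem mod_of_lt (hp : 2 ≤ p) (α β d : k) {z : k[X][Y]} (hz : z.natDegree < p) :
    z %ₘ Pd p α β d = z := by
  obtain ⟨hm, hd⟩ := Pd_monic hp α β d
  rw [modByMonic_eq_self_iff hm]
  exact degree_lt_degree (by rw [hd]; exact hz)

theorem mod_mod (hp : 2 ≤ p) (α β d : k) (z : k[X][Y]) :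
    (z %ₘ Pd p α β d) %ₘ Pd p α β d = z %ₘ Pd p α β d :=
  mod_of_lt hp α β d (mod_natDegree hp α β d z)

theorem mod_mul_mod (hp : 2 ≤ p) (α β d : k) (y z : k[X][Y]) :
    (y * (z %ₘ Pd p α β d)) %ₘ Pd p α β d = (y * z) %ₘ Pd p α β d := by
  rw [mul_modByMonic y (z %ₘ Pd p α β d), mod_mod hp, ← mul_modByMonic]

theorem Top_G_mul (hp : 2 ≤ p) {μ : ℕ} (hμ : 1 ≤ μ) {α : k} (hα : α ≠ 0) (β d : k) {W : ℕ}
    {z : k[X][Y]} (hz : Top p W z) :
    Top p (W + (p + 1) * p ^ μ) ((Gpoly p μ α β d * z) %ₘ Pd p α β d) := by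
  obtain ⟨m, rfl⟩ : ∃ m, μ = m + 1 := ⟨μ - 1, by omega⟩
  have hUdeg := Upoly_natDegree hp (μ := m + 1) (by omega) hα β d
  simp only [Nat.add_sub_cancel] at hUdeg
  have hpm : 0 < p ^ m := pow_pos (by omega) _
  have hpm1 : 1 < p ^ (m + 1) := Nat.one_lt_pow (by omega) (by omega)
  have hU0 : Upoly p (m + 1) α β d ≠ 0 := by
    intro h
    rw [h, natDegree_zero] at hUdeg
    omega
  have h1 : (Gpoly p (m + 1) α β d * z) %ₘ Pd p α β d = C (Upoly p (m + 1) α β d) * z
      + (C (X ^ (p ^ (m + 1) - 1)) * Y * z) %ₘ Pd p α β d := by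
    unfold Gpoly
    rw [add_mul, add_modByMonic, add_comm]
    congr 1
    exact mod_of_lt hp α β d (lt_of_le_of_lt (natDegree_C_mul_le _ _) hz.1)
  rw [h1]
  have h2 := Top_C_mul hz hU0
  rw [hUdeg] at h2
  have h3 : W + p * (p ^ (m + 1) + p ^ m) = W + (p + 1) * p ^ (m + 1) := by
    rw [pow_succ]; ring
  rw [h3] at h2
  refine Top_add_lt h2 (V := p * (p ^ (m + 1) - 1) + (p + 1) + W) ?_ (mod_natDegree hp α β d _) ?_
  · exact Wt_mod hp α β d (Wt_mul (Wt_mul (Wt_C (natDegree_X_pow_le _)) Wt_Y) hz.2.1)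
  · obtain ⟨e, he⟩ : ∃ e, p ^ (m + 1) = e + 2 := ⟨p ^ (m + 1) - 2, by omega⟩
    rw [he]
    have : e + 2 - 1 = e + 1 := by omega
    rw [this]
    nlinarith

theorem box_coeff (A : ℕ) (c : Fin p × Fin A → k) (j : Fin p) (i : Fin A) :
    ((box p A c).coeff (j : ℕ)).coeff (i : ℕ) = c (j, i) := by
  unfold box
  rw [finsetSum_coeff, finsetSum_coeff, Finset.sum_eq_single (j, i)]
  · rw [coeff_C_mul, coeff_X_pow, if_pos rfl, mul_one, coeff_C_mul, coeff_X_pow, if_pos rfl,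
      mul_one]
  · intro s _ hs
    rw [coeff_C_mul, coeff_X_pow]
    split_ifs with h1
    · rw [mul_one, coeff_C_mul, coeff_X_pow]
      split_ifs with h2
      · exfalso
        apply hs
        ext
        · exact h1.symm
        · exact h2.symm
      · rw [mul_zero]
    · rw [mul_zero, coeff_zero]
  · intro h
    exact absurd (Finset.mem_univ _) h

theorem box_ne_zero {A : ℕ} {c : Fin p × Fin A → k} (hc : c ≠ 0) : box p A c ≠ 0 := by
  intro h
  apply hc
  funext s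
  have h1 := box_coeff A c s.1 s.2
  rw [h] at h1
  simpa using h1.symm

theorem box_natDegree (hp : 2 ≤ p) (A : ℕ) (c : Fin p × Fin A → k) :
    (box p A c).natDegree < p := by
  unfold box
  refine lt_of_le_of_lt (natDegree_sum_le_of_forall_le (n := p - 1) _ _ fun s _ => ?_) (by omega)
  refine (natDegree_C_mul_X_pow_le _ _).trans ?_
  have := s.1.isLt
  omega

theorem Top_pow (hp : 2 ≤ p) {μ : ℕ} (hμ : 1 ≤ μ) {α : k} (hα : α ≠ 0) (β d : k) {w : ℕ}
    {b : k[X][Y]} (hb : Top p w b) (u v : ℕ) :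
    Top p (w + p ^ μ * (p * u + (p + 1) * v))
      ((b * (C (X ^ (p ^ μ * u)) * Gpoly p μ α β d ^ v)) %ₘ Pd p α β d) := by
  induction v with
  | zero =>
    have h1 := Top_C_mul hb (U := X ^ (p ^ μ * u)) (pow_ne_zero _ X_ne_zero)
    rw [natDegree_X_pow] at h1
    have h2 : b * (C (X ^ (p ^ μ * u)) * Gpoly p μ α β d ^ 0) = C (X ^ (p ^ μ * u)) * b := by
      rw [pow_zero, mul_one, mul_comm]
    rw [h2, mod_of_lt hp α β d h1.1]
    have h3 : w + p ^ μ * (p * u + (p + 1) * 0) = w + p * (p ^ μ * u) := by ring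
    rw [h3]
    exact h1
  | succ v ih =>
    have h1 := Top_G_mul hp hμ hα β d ih
    rw [mod_mul_mod hp] at h1
    have h2 : Gpoly p μ α β d * (b * (C (X ^ (p ^ μ * u)) * Gpoly p μ α β d ^ v))
        = b * (C (X ^ (p ^ μ * u)) * Gpoly p μ α β d ^ (v + 1)) := by ring
    rw [h2] at h1
    have h3 : w + p ^ μ * (p * u + (p + 1) * (v + 1))
        = w + p ^ μ * (p * u + (p + 1) * v) + (p + 1) * p ^ μ := by ring
    rw [h3]
    exact h1

theorem sum_mod (α β d : k) {ι : Type} (s : Finset ι) (f : ι → k[X][Y]) :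
    (∑ i ∈ s, f i) %ₘ Pd p α β d = ∑ i ∈ s, f i %ₘ Pd p α β d := by
  classical
  induction s using Finset.induction_on with
  | empty => simp
  | insert a s ha ih => rw [Finset.sum_insert ha, Finset.sum_insert ha, add_modByMonic, ih]

theorem Haux_ne_zero (hp : 2 ≤ p) {μ : ℕ} (hμ : 1 ≤ μ) {α : k} (hα : α ≠ 0) (β d : k) {A B : ℕ}
    (hA : 1 ≤ A) (hAμ : p * A + p ^ 2 ≤ p ^ μ) {c : Fin B × Fin p → Fin p × Fin A → k}
    (hc : c ≠ 0) : Haux p μ A B α β d c ≠ 0 := by
  classical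
  set T : Fin B × Fin p → k[X][Y] := fun s =>
    (box p A (c s) * (C (X ^ (p ^ μ * (s.1 : ℕ))) * Gpoly p μ α β d ^ (s.2 : ℕ))) %ₘ Pd p α β d
    with hT
  have hsum : Haux p μ A B α β d c = ∑ s, T s := by
    unfold Haux
    rw [sum_mod]
  have hTop : ∀ s, c s ≠ 0 → ∃ w, w < p ^ μ ∧
      Top p (w + p ^ μ * (p * (s.1 : ℕ) + (p + 1) * (s.2 : ℕ))) (T s) := by
    intro s hs
    obtain ⟨w, hw1, hw2⟩ := exists_Top (box_ne_zero hs) (box_natDegree hp A (c s))
      (Wt_box hp hA (c s))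
    have hpp : 0 < p ^ 2 := pow_pos (by omega) 2
    exact ⟨w, by omega, Top_pow hp hμ hα β d hw2 _ _⟩
  choose! w hw1 hw2 using hTop
  set g : Fin B × Fin p → ℕ := fun s => w s + p ^ μ * (p * (s.1 : ℕ) + (p + 1) * (s.2 : ℕ)) with hg
  set S : Finset (Fin B × Fin p) := univ.filter fun s => c s ≠ 0 with hS
  have hSne : S.Nonempty := by
    obtain ⟨s, hs⟩ : ∃ s, c s ≠ 0 := by
      by_contra h
      push Not at h
      exact hc (funext h)
    exact ⟨s, by simp [hS, hs]⟩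
  have hinj : ∀ s ∈ S, ∀ t ∈ S, g s = g t → s = t := by
    intro s hs t ht hst
    have hs' : c s ≠ 0 := by simpa [hS] using hs
    have ht' : c t ≠ 0 := by simpa [hS] using ht
    have e1 := hw1 s hs'
    have e2 := hw1 t ht'
    have hpos : 0 < p ^ μ := pow_pos (by omega) _
    have e3 : (g s) / p ^ μ = p * (s.1 : ℕ) + (p + 1) * (s.2 : ℕ) := by
      rw [hg]
      simp only
      rw [Nat.add_mul_div_left _ _ hpos, Nat.div_eq_of_lt e1, zero_add]
    have e4 : (g t) / p ^ μ = p * (t.1 : ℕ) + (p + 1) * (t.2 : ℕ) := by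
      rw [hg]
      simp only
      rw [Nat.add_mul_div_left _ _ hpos, Nat.div_eq_of_lt e2, zero_add]
    rw [hst, e4] at e3
    have e5 : (p * (t.1 : ℕ) + (p + 1) * (t.2 : ℕ)) % p = (t.2 : ℕ) := by
      have : p * (t.1 : ℕ) + (p + 1) * (t.2 : ℕ) = (t.2 : ℕ) + p * ((t.1 : ℕ) + (t.2 : ℕ)) := by
        ring
      rw [this, Nat.add_mul_mod_self_left, Nat.mod_eq_of_lt t.2.isLt]
    have e6 : (p * (s.1 : ℕ) + (p + 1) * (s.2 : ℕ)) % p = (s.2 : ℕ) := by
      have : p * (s.1 : ℕ) + (p + 1) * (s.2 : ℕ) = (s.2 : ℕ) + p * ((s.1 : ℕ) + (s.2 : ℕ)) := by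
        ring
      rw [this, Nat.add_mul_mod_self_left, Nat.mod_eq_of_lt s.2.isLt]
    have e7 : (s.2 : ℕ) = (t.2 : ℕ) := by rw [← e5, ← e6, e3]
    have e8 : (s.1 : ℕ) = (t.1 : ℕ) := by
      rw [e7] at e3
      have e9 : p * (t.1 : ℕ) = p * (s.1 : ℕ) := by omega
      exact (Nat.eq_of_mul_eq_mul_left (by omega) e9).symm
    ext
    · exact e8
    · exact e7
  obtain ⟨s0, hs0, hmax⟩ := Finset.exists_max_image S g hSne
  have hs0' : c s0 ≠ 0 := by simpa [hS] using hs0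
  have hTS : ∑ s, T s = ∑ s ∈ S, T s := by
    rw [hS, Finset.sum_filter]
    refine Finset.sum_congr rfl fun s _ => ?_
    split_ifs with h
    · rfl
    · have h0 : c s = 0 := not_not.1 h
      have hb : box p A (c s) = 0 := by
        rw [h0]; unfold box; simp
      simp [hT, hb]
  rw [hsum, hTS, ← Finset.add_sum_erase S T hs0]
  rcases (S.erase s0).eq_empty_or_nonempty with hE | ⟨s1, hs1⟩
  · rw [hE, Finset.sum_empty, add_zero]
    exact Top_ne_zero (hw2 s0 hs0')
  · have hlt : ∀ s ∈ S.erase s0, g s ≤ g s0 - 1 := by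
      intro s hs
      rw [Finset.mem_erase] at hs
      have h1 := hmax s hs.2
      have h2 : g s ≠ g s0 := fun h => hs.1 (hinj s hs.2 s0 hs0 h)
      omega
    have hpos : 0 < g s0 := by
      have h1 := hs1
      rw [Finset.mem_erase] at h1
      have h2 := hmax s1 h1.2
      have h3 : g s1 ≠ g s0 := fun h => h1.1 (hinj s1 h1.2 s0 hs0 h)
      omega
    refine Top_ne_zero (Top_add_lt (V := g s0 - 1) (hw2 s0 hs0') ?_ ?_
      (show g s0 - 1 < g s0 by omega))
    · refine Wt_sum _ fun s hs => ?_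
      have h1 : c s ≠ 0 := by
        have := Finset.mem_of_mem_erase hs
        simpa [hS] using this
      exact Wt_mono (hlt s hs) (hw2 s h1).2.1
    · rw [hT, ← sum_mod]
      exact mod_natDegree hp α β d _

end Pool.Agent.Work.MP_2dba45_nt.Weil
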