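import Pool.Agent.Work.MP_2dba45_nt.Weil.Defs

set_option autoImplicit false

/-!
Module WEIGHT.  The weighted degree filtration `Wt` of `k[X][Y]` and reduction modulo `Pd`.
-/

namespace Pool.Agent.Work.MP_2dba45_nt.Weil

open Polynomial Finset
open scoped Polynomial.Bivariate

variable {k : Type} [Field k] {p : ℕ}

theorem Wt_zero (W : ℕ) : Wt p W (0 : k[X][Y]) := by
  intro i j h
  simp at h

theorem Wt_mono {V W : ℕ} (h : V ≤ W) {z : k[X][Y]} (hz : Wt p V z) : Wt p W z :=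
  fun i j hij => (hz i j hij).trans h

theorem Wt_add {W : ℕ} {y z : k[X][Y]} (hy : Wt p W y) (hz : Wt p W z) : Wt p W (y + z) := by
  intro i j h
  by_cases h1 : (y.coeff j).coeff i = 0
  · by_cases h2 : (z.coeff j).coeff i = 0
    · rw [coeff_add, coeff_add, h1, h2, add_zero] at h
      exact absurd rfl h
    · exact hz i j h2
  · exact hy i j h1

theorem Wt_sub {W : ℕ} {y z : k[X][Y]} (hy : Wt p W y) (hz : Wt p W z) : Wt p W (y - z) := by
  intro i j h
  by_cases h1 : (y.coeff j).coeff i = 0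
  · by_cases h2 : (z.coeff j).coeff i = 0
    · rw [coeff_sub, coeff_sub, h1, h2, sub_zero] at h
      exact absurd rfl h
    · exact hz i j h2
  · exact hy i j h1

theorem Wt_sum {ι : Type} (s : Finset ι) {W : ℕ} {z : ι → k[X][Y]} (h : ∀ i ∈ s, Wt p W (z i)) :
    Wt p W (∑ i ∈ s, z i) := by
  classical
  induction s using Finset.induction_on with
  | empty => simpa using Wt_zero W
  | insert a s ha ih =>
    rw [Finset.sum_insert ha]
    exact Wt_add (h a (Finset.mem_insert_self a s))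
      (ih fun i hi => h i (Finset.mem_insert_of_mem hi))

theorem Wt_mul {V W : ℕ} {y z : k[X][Y]} (hy : Wt p V y) (hz : Wt p W z) :
    Wt p (V + W) (y * z) := by
  intro i j h
  rw [coeff_mul, finsetSum_coeff] at h
  obtain ⟨⟨a, b⟩, hab, h1⟩ := Finset.exists_ne_zero_of_sum_ne_zero h
  rw [coeff_mul] at h1
  obtain ⟨⟨c, e⟩, hce, h2⟩ := Finset.exists_ne_zero_of_sum_ne_zero h1
  rw [HasAntidiagonal.mem_antidiagonal] at hab hce
  simp only at hab hce h2
  have h3 := hy c a (left_ne_zero_of_mul h2)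
  have h4 := hz e b (right_ne_zero_of_mul h2)
  rw [← hab, ← hce]
  have h5 : p * (c + e) + (p + 1) * (a + b) = (p * c + (p + 1) * a) + (p * e + (p + 1) * b) := by
    ring
  rw [h5]
  exact add_le_add h3 h4

theorem Wt_one : Wt p 0 (1 : k[X][Y]) := by
  intro i j h
  rw [coeff_one] at h
  split_ifs at h with hj
  · rw [coeff_one] at h
    split_ifs at h with hi
    · simp [hi, hj]
    · exact absurd rfl h
  · simp at h

theorem Wt_pow {W : ℕ} {z : k[X][Y]} (hz : Wt p W z) (n : ℕ) : Wt p (n * W) (z ^ n) := by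
  induction n with
  | zero => simpa using Wt_one (k := k) (p := p)
  | succ n ih =>
    rw [pow_succ, Nat.succ_mul]
    exact Wt_mul ih hz

/-- A polynomial in `X` alone, with all exponents bounded. -/
theorem Wt_C' {V : ℕ} {f : k[X]} (hf : ∀ i, f.coeff i ≠ 0 → p * i ≤ V) :
    Wt p V (C f : k[X][Y]) := by
  intro i j h
  rw [coeff_C] at h
  split_ifs at h with hj
  · subst hj
    simpa using hf i h
  · simp at h

/-- A polynomial in `X` alone. -/
theorem Wt_C {D : ℕ} {f : k[X]} (hf : f.natDegree ≤ D) : Wt p (p * D) (C f : k[X][Y]) :=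
  Wt_C' fun _ hi => Nat.mul_le_mul_left _ ((le_natDegree_of_ne_zero hi).trans hf)

theorem Wt_Y : Wt p (p + 1) (Y : k[X][Y]) := by
  intro i j h
  rw [coeff_X] at h
  split_ifs at h with hj
  · rw [coeff_one] at h
    split_ifs at h with hi
    · subst hi hj; simp
    · exact absurd rfl h
  · simp at h

theorem Qd_natDegree (α β d : k) : (Qd p α β d).natDegree ≤ 1 := by
  unfold Qd
  exact natDegree_linear_le

theorem Pd_monic (hp : 2 ≤ p) (α β d : k) : (Pd p α β d).Monic ∧ (Pd p α β d).natDegree = p := by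
  have h1 : (Qd p α β d).natDegree < ((Y : k[X][Y]) ^ p).natDegree := by
    rw [natDegree_X_pow]
    exact lt_of_le_of_lt (Qd_natDegree α β d) (by omega)
  constructor
  · unfold Pd
    refine (monic_X_pow p).sub_of_left ?_
    exact degree_lt_degree h1
  · unfold Pd
    rw [natDegree_sub_eq_left_of_natDegree_lt h1, natDegree_X_pow]

theorem mod_natDegree (hp : 2 ≤ p) (α β d : k) (z : k[X][Y]) :
    (z %ₘ Pd p α β d).natDegree < p := by
  obtain ⟨h1, h2⟩ := Pd_monic hp α β d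
  have h3 : Pd p α β d ≠ 1 := by
    intro h
    rw [h, natDegree_one] at h2
    omega
  have := natDegree_modByMonic_lt z h1 h3
  rwa [h2] at this

theorem natDegree_CX2 (α β d : k) : (C α * X ^ 2 + C β - C d * X : k[X]).natDegree ≤ 2 := by
  have h : (C α * X ^ 2 + C β - C d * X : k[X]) = C α * X ^ 2 + C (-d) * X + C β := by
    rw [C_neg]; ring
  rw [h]
  exact natDegree_quadratic_le

theorem Wt_Pd (hp : 2 ≤ p) (α β d : k) : Wt p (p * (p + 1)) (Pd p α β d) := by
  unfold Pd Qd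
  refine Wt_sub (Wt_pow Wt_Y p) (Wt_add ?_ ?_)
  · refine Wt_mono ?_ (Wt_mul (Wt_C (D := p - 1) (natDegree_X_pow_le _)) Wt_Y)
    obtain ⟨q, rfl⟩ : ∃ q, p = q + 1 := ⟨p - 1, by omega⟩
    simp only [Nat.add_sub_cancel]
    nlinarith
  · refine Wt_C ?_
    have h1 : (C α * X ^ (p + 1) + C β * X ^ (p - 1) - C d * X ^ p : k[X]).natDegree ≤ p + 1 := by
      refine (natDegree_sub_le _ _).trans (max_le ((natDegree_add_le _ _).trans (max_le ?_ ?_)) ?_)
      · exact natDegree_C_mul_X_pow_le _ _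
      · exact (natDegree_C_mul_X_pow_le _ _).trans (by omega)
      · exact (natDegree_C_mul_X_pow_le _ _).trans (by omega)
    exact h1

theorem Wt_mod (hp : 2 ≤ p) (α β d : k) {W : ℕ} {z : k[X][Y]} (hz : Wt p W z) :
    Wt p W (z %ₘ Pd p α β d) := by
  obtain ⟨hm, hd⟩ := Pd_monic hp α β d
  induction hn : z.natDegree using Nat.strong_induction_on generalizing z with
  | _ n ih =>
    by_cases hlt : z.natDegree < p
    · have h1 : z %ₘ Pd p α β d = z := by
        rw [modByMonic_eq_self_iff hm]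
        exact degree_lt_degree (by rw [hd]; exact hlt)
      rw [h1]; exact hz
    · have hle : p ≤ z.natDegree := not_lt.1 hlt
      have hz0 : z ≠ 0 := by
        rintro rfl
        simp at hle
        omega
      have hdeg : (Pd p α β d).degree ≤ z.degree := by
        rw [degree_eq_natDegree hm.ne_zero, degree_eq_natDegree hz0, hd]
        exact_mod_cast hle
      have hlt2 := div_wf_lemma ⟨hdeg, hz0⟩ hm
      set c := z.leadingCoeff with hc
      set z' := z - Pd p α β d * (C c * X ^ (z.natDegree - (Pd p α β d).natDegree)) with hz'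
      have h2 : z %ₘ Pd p α β d = z' %ₘ Pd p α β d := by
        have h3 : (Pd p α β d * (C c * X ^ (z.natDegree - (Pd p α β d).natDegree)))
            %ₘ Pd p α β d = 0 := self_mul_modByMonic hm
        rw [hz', sub_modByMonic, h3, sub_zero]
      have hc0 : c ≠ 0 := leadingCoeff_ne_zero.2 hz0
      have hWn : (p + 1) * z.natDegree ≤ W := by
        obtain ⟨i, hi⟩ : ∃ i, c.coeff i ≠ 0 := by
          by_contra hcon
          push Not at hcon
          exact hc0 (by ext i; simpa using hcon i)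
        have := hz i z.natDegree hi
        omega
      have hWz' : Wt p W z' := by
        refine Wt_sub hz ?_
        have h4 : Wt p (W - (p + 1) * z.natDegree) (C c : k[X][Y]) := by
          refine Wt_C' fun i hi => ?_
          have := hz i z.natDegree hi
          omega
        have h5 := Wt_mul (Wt_Pd hp α β d) (Wt_mul h4 (Wt_pow Wt_Y (z.natDegree - p)))
        rw [hd]
        refine Wt_mono ?_ h5
        obtain ⟨e, he⟩ := Nat.exists_eq_add_of_le hle
        obtain ⟨f, hf⟩ := Nat.exists_eq_add_of_le hWn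
        rw [hf, he]
        simp only [Nat.add_sub_cancel_left]
        nlinarith
      rw [h2]
      by_cases hz'0 : z' = 0
      · rw [hz'0, zero_modByMonic]
        exact Wt_zero W
      · exact ih z'.natDegree (by rw [← hn]; exact natDegree_lt_natDegree hz'0 hlt2) hWz' rfl

theorem Wt_box (hp : 2 ≤ p) {A : ℕ} (hA : 1 ≤ A) (c : Fin p × Fin A → k) :
    Wt p (p * A + p ^ 2 - p - 1) (box p A c) := by
  unfold box
  refine Wt_sum _ fun s _ => ?_
  have h1 := Wt_mul (Wt_C (p := p) (D := A - 1) (f := C (c s) * X ^ (s.2 : ℕ))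
    ((natDegree_C_mul_X_pow_le _ _).trans (by have := s.2.isLt; omega)))
    (Wt_pow (Wt_Y (k := k) (p := p)) (s.1 : ℕ))
  refine Wt_mono ?_ h1
  have h2 : (s.1 : ℕ) * (p + 1) ≤ (p - 1) * (p + 1) :=
    Nat.mul_le_mul_right _ (by have := s.1.isLt; omega)
  obtain ⟨q, rfl⟩ : ∃ q, p = q + 1 := ⟨p - 1, by omega⟩
  obtain ⟨B, rfl⟩ : ∃ B, A = B + 1 := ⟨A - 1, by omega⟩
  simp only [Nat.add_sub_cancel] at h2 ⊢
  have h3 : (q + 1) * (B + 1) + (q + 1) ^ 2 - (q + 1) - 1 = (q + 1) * B + q * (q + 1 + 1) := by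
    have : (q + 1) * (B + 1) + (q + 1) ^ 2 = (q + 1) * B + q * (q + 1 + 1) + (q + 1) + 1 := by
      ring
    omega
  omega

theorem Upoly_natDegree (hp : 2 ≤ p) {μ : ℕ} (hμ : 1 ≤ μ) {α : k} (hα : α ≠ 0) (β d : k) :
    (Upoly p μ α β d).natDegree = p ^ μ + p ^ (μ - 1) := by
  obtain ⟨m, rfl⟩ : ∃ m, μ = m + 1 := ⟨μ - 1, by omega⟩
  simp only [Nat.add_sub_cancel]
  have hquad : (C α * X ^ 2 + C β - C d * X : k[X]).natDegree = 2 := by
    have h : (C α * X ^ 2 + C β - C d * X : k[X]) = C α * X ^ 2 + C (-d) * X + C β := by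
      rw [C_neg]; ring
    rw [h]
    exact natDegree_quadratic hα
  have hquad0 : (C α * X ^ 2 + C β - C d * X : k[X]) ≠ 0 := by
    intro h
    rw [h] at hquad
    simp at hquad
  have hpm : 0 < p ^ m := pow_pos (by omega) _
  have hlepow : p ^ m ≤ p ^ (m + 1) := Nat.pow_le_pow_right (by omega) (by omega)
  have hlast : (X ^ (p ^ (m + 1) - p ^ m) * (C α * X ^ 2 + C β - C d * X : k[X]) ^ (p ^ m)).natDegree
      = p ^ (m + 1) + p ^ m := by
    rw [natDegree_mul (pow_ne_zero _ X_ne_zero) (pow_ne_zero _ hquad0), natDegree_X_pow,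
      natDegree_pow, hquad]
    omega
  have hfirst : (∑ t ∈ range m, X ^ (p ^ (m + 1) - p ^ t)
      * (C α * X ^ 2 + C β - C d * X : k[X]) ^ (p ^ t)).natDegree ≤ p ^ (m + 1) + p ^ m - 1 := by
    refine natDegree_sum_le_of_forall_le _ _ fun t ht => ?_
    rw [mem_range] at ht
    have h1 : p ^ t < p ^ m := Nat.pow_lt_pow_right (by omega) ht
    have h2 : (X ^ (p ^ (m + 1) - p ^ t)
      * (C α * X ^ 2 + C β - C d * X : k[X]) ^ (p ^ t)).natDegree
        ≤ (p ^ (m + 1) - p ^ t) + p ^ t * 2 := by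
      refine natDegree_mul_le.trans (add_le_add (natDegree_X_pow_le _) ?_)
      refine natDegree_pow_le.trans (Nat.mul_le_mul_left _ hquad.le)
    omega
  unfold Upoly
  rw [Finset.sum_range_succ, natDegree_add_eq_right_of_natDegree_lt, hlast]
  rw [hlast]
  omega

theorem Wt_Gpoly (hp : 2 ≤ p) {μ : ℕ} (hμ : 1 ≤ μ) {α : k} (hα : α ≠ 0) (β d : k) :
    Wt p ((p + 1) * p ^ μ) (Gpoly p μ α β d) := by
  unfold Gpoly
  obtain ⟨m, rfl⟩ : ∃ m, μ = m + 1 := ⟨μ - 1, by omega⟩
  have hpm : 0 < p ^ m := pow_pos (by omega) _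
  have hpm1 : 0 < p ^ (m + 1) := pow_pos (by omega) _
  refine Wt_add ?_ ?_
  · refine Wt_mono ?_ (Wt_mul (Wt_C (p := p) (natDegree_X_pow_le _)) Wt_Y)
    obtain ⟨e, he⟩ : ∃ e, p ^ (m + 1) = e + 1 := ⟨p ^ (m + 1) - 1, by omega⟩
    rw [he]
    simp only [Nat.add_sub_cancel]
    nlinarith
  · have h1 := Wt_C (p := p) (Upoly_natDegree hp (μ := m + 1) (by omega) hα β d).le
    refine Wt_mono (le_of_eq ?_) h1
    simp only [Nat.add_sub_cancel]
    rw [pow_succ]; ring

/-- The weight of the auxiliary function. -/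
theorem Wt_Haux (hp : 2 ≤ p) {μ : ℕ} (hμ : 1 ≤ μ) {α : k} (hα : α ≠ 0) (β d : k) {A B : ℕ}
    (hA : 1 ≤ A) (hB : 1 ≤ B) (c : Fin B × Fin p → Fin p × Fin A → k) :
    Wt p (p * A + p ^ 2 + p ^ μ * (p * B + p ^ 2)) (Haux p μ A B α β d c) := by
  have _ := hB
  unfold Haux
  refine Wt_mod hp α β d (Wt_sum _ fun s _ => ?_)
  have h1 := Wt_mul (Wt_box hp hA (c s)) (Wt_mul
    (Wt_C (p := p) (natDegree_X_pow_le (R := k) (p ^ μ * (s.1 : ℕ))))
    (Wt_pow (Wt_Gpoly hp hμ hα β d) (s.2 : ℕ)))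
  refine Wt_mono ?_ h1
  have h2 : (s.1 : ℕ) ≤ B := s.1.isLt.le
  have h3 : (s.2 : ℕ) * ((p + 1) * p ^ μ) ≤ (p - 1) * ((p + 1) * p ^ μ) :=
    Nat.mul_le_mul_right _ (by have := s.2.isLt; omega)
  have h4 : (p - 1) * ((p + 1) * p ^ μ) ≤ p ^ μ * p ^ 2 := by
    obtain ⟨q, rfl⟩ : ∃ q, p = q + 1 := ⟨p - 1, by omega⟩
    simp only [Nat.add_sub_cancel]
    have : q * (q + 1 + 1) ≤ (q + 1) ^ 2 := by nlinarith
    calc q * ((q + 1 + 1) * (q + 1) ^ μ) = (q + 1) ^ μ * (q * (q + 1 + 1)) := by ring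
      _ ≤ (q + 1) ^ μ * (q + 1) ^ 2 := Nat.mul_le_mul_left _ this
  have h5 : p * (p ^ μ * (s.1 : ℕ)) ≤ p ^ μ * (p * B) := by
    calc p * (p ^ μ * (s.1 : ℕ)) = p ^ μ * (p * (s.1 : ℕ)) := by ring
      _ ≤ p ^ μ * (p * B) := Nat.mul_le_mul_left _ (Nat.mul_le_mul_left _ h2)
  rw [mul_add (p ^ μ)]
  omega

end Pool.Agent.Work.MP_2dba45_nt.Weil
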